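import Pool.Agent.InterD.Def

/-!
# Definability automation; induction, comprehension and least elements for definable predicates
-/

set_option linter.unusedTactic false
set_option linter.unreachableTactic false

open FirstOrder FirstOrder.Language FirstOrder.Ring

namespace Pool.InterD

open Pool.Interstr Pool.InterPA

section

variable {N : Type} [CommSemiring N] [Neg N] [CompatibleRing N] {Z : Set N} {ι : Type}

lemma DT.wk {t : (ι → N) → N} (ht : DT Z t) :
    DT Z (fun w : Option ι → N => t (fun i => w (some i))) := by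
  obtain ⟨τ, hτ⟩ := ht
  refine ⟨τ.relabel (Sum.map id some), fun v => ?_⟩
  beta_reduce
  rw [hτ, Term.realize_relabel]
  congr 1
  funext i
  rcases i with i | i <;> simp

lemma DP.In {c j : (ι → N) → N} (hc : DT Z c) (hj : DT Z j) : DP Z (fun v => In (c v) (j v)) := by
  unfold InterD.In
  apply DP.ex
  apply DP.ex
  apply DP.and
  · exact DP.eq (DT.wk (DT.wk hc)) (DT.pr (DT.proj _) (DT.proj _))
  · exact DP.dvd (DT.add DT.one (DT.mul (DT.add (DT.wk (DT.wk hj)) DT.one) (DT.proj _)))
      (DT.proj _)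

lemma DP.In2 {c a b : (ι → N) → N} (hc : DT Z c) (ha : DT Z a) (hb : DT Z b) :
    DP Z (fun v => In2 (c v) (a v) (b v)) := DP.In hc (DT.pr ha hb)

lemma DP.In3 {c a b d : (ι → N) → N} (hc : DT Z c) (ha : DT Z a) (hb : DT Z b) (hd : DT Z d) :
    DP Z (fun v => In3 (c v) (a v) (b v) (d v)) := DP.In hc (DT.pr ha (DT.pr hb hd))

lemma DP.Val {c a k : (ι → N) → N} (hc : DT Z c) (ha : DT Z a) (hk : DT Z k) :
    DP Z (fun v => Val (c v) (a v) (k v)) := by
  unfold InterD.Val
  apply DP.and
  · exact DP.In2 hc ha hk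
  · apply DP.all
    apply DP.imp
    · exact DP.lt (DT.proj _) (DT.wk hk)
    · exact DP.not (DP.In2 (DT.wk hc) (DT.wk ha) (DT.proj _))

/-- induction for definable predicates -/
theorem ind1 (hN : IsPA N) (P : N → Prop) (hP : DP Set.univ (fun v : Fin 1 → N => P (v 0)))
    (h0 : P 0) (h1 : ∀ x, P x → P (x + 1)) : ∀ x, P x := by
  obtain ⟨φ, hφ⟩ := hP
  have h := hN.ind φ (fun z : (Set.univ : Set N) => (z : N)) ((hφ (fun _ => 0)).1 h0)
    (fun x hx => (hφ (fun _ => x + 1)).1 (h1 x ((hφ (fun _ => x)).2 hx)))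
  exact fun x => (hφ (fun _ => x)).2 (h x)

/-- least number principle for definable predicates -/
theorem least1 (hN : IsPA N) (P : N → Prop) (hP : DP Set.univ (fun v : Fin 1 → N => P (v 0)))
    (h : ∃ x, P x) : ∃ x, P x ∧ ∀ z, P z → Le x z := by
  obtain ⟨φ, hφ⟩ := hP
  obtain ⟨x, hx⟩ := h
  obtain ⟨y, hy, hy'⟩ := hN.exists_least φ (fun z : (Set.univ : Set N) => (z : N))
    ⟨x, (hφ (fun _ => x)).1 hx⟩
  exact ⟨y, (hφ (fun _ => y)).2 hy, fun z hz => hy' z ((hφ (fun _ => z)).1 hz)⟩

lemma pr_inj (hN : IsPA N) {a b c d : N} (h : pr a b = pr c d) : a = c ∧ b = d := hN.pair_inj h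

/-- comprehension for bounded definable sets -/
theorem comp1 (hN : IsPA N) (P : N → Prop) (hP : DP Set.univ (fun v : Fin 1 → N => P (v 0)))
    (m : N) : ∃ c, ∀ j, Le j m → (In c j ↔ P j) := by
  obtain ⟨φ, hφ⟩ := hP
  obtain ⟨q, hq0, hq⟩ := hN.exists_q m
  obtain ⟨s, hs⟩ := hN.exists_code_formula φ (fun z : (Set.univ : Set N) => (z : N)) hq0 hq
  refine ⟨pr q s, fun j hj => ?_⟩
  have h1 := hφ (fun _ => j)
  rw [← hs j hj] at h1
  refine Iff.trans ⟨?_, fun h => ⟨q, s, rfl, h⟩⟩ h1.symm
  rintro ⟨q', s', h, h'⟩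
  obtain ⟨rfl, rfl⟩ := pr_inj hN h
  exact h'

/-- comprehension for bounded definable binary relations -/
theorem comp2 (hN : IsPA N) (P : N → N → Prop)
    (hP : DP Set.univ (fun v : Fin 2 → N => P (v 0) (v 1))) (m : N) :
    ∃ c, ∀ a b, Le a m → Le b m → (In2 c a b ↔ P a b) := by
  obtain ⟨c, hc⟩ := comp1 hN (fun j => ∃ a b, j = pr a b ∧ P a b) (by
    apply DP.ex
    apply DP.ex
    apply DP.and
    · exact DP.eq (by beta_reduce; repeat' with_reducible first | exact DT.proj _ | exact DT.zero | exact DT.one | apply DT.pr | apply DT.add | apply DT.mul | exact DT.const (Set.mem_univ _) | exact DT.const (SetLike.mem_coe.2 (by assumption)) | exact DT.const (by assumption)) (by beta_reduce; repeat' with_reducible first | exact DT.proj _ | exact DT.zero | exact DT.one | apply DT.pr | apply DT.add | apply DT.mul | exact DT.const (Set.mem_univ _) | exact DT.const (SetLike.mem_coe.2 (by assumption)) | exact DT.const (by assumption))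
    · exact DP.comp2 hP (by beta_reduce; repeat' with_reducible first | exact DT.proj _ | exact DT.zero | exact DT.one | apply DT.pr | apply DT.add | apply DT.mul | exact DT.const (Set.mem_univ _) | exact DT.const (SetLike.mem_coe.2 (by assumption)) | exact DT.const (by assumption)) (by beta_reduce; repeat' with_reducible first | exact DT.proj _ | exact DT.zero | exact DT.one | apply DT.pr | apply DT.add | apply DT.mul | exact DT.const (Set.mem_univ _) | exact DT.const (SetLike.mem_coe.2 (by assumption)) | exact DT.const (by assumption))) (pr m m)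
  refine ⟨c, fun a b ha hb => ?_⟩
  rw [In2, hc _ (pr_mono ha hb)]
  constructor
  · rintro ⟨a', b', h, h'⟩
    obtain ⟨rfl, rfl⟩ := pr_inj hN h
    exact h'
  · exact fun h => ⟨a, b, rfl, h⟩

/-- comprehension for bounded definable ternary relations -/
theorem comp3 (hN : IsPA N) (P : N → N → N → Prop)
    (hP : DP Set.univ (fun v : Fin 3 → N => P (v 0) (v 1) (v 2))) (m : N) :
    ∃ c, ∀ a b d, Le a m → Le b m → Le d m → (In3 c a b d ↔ P a b d) := by
  obtain ⟨c, hc⟩ := comp1 hN (fun j => ∃ a b d, j = pr a (pr b d) ∧ P a b d) (by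
    apply DP.ex
    apply DP.ex
    apply DP.ex
    apply DP.and
    · exact DP.eq (by beta_reduce; repeat' with_reducible first | exact DT.proj _ | exact DT.zero | exact DT.one | apply DT.pr | apply DT.add | apply DT.mul | exact DT.const (Set.mem_univ _) | exact DT.const (SetLike.mem_coe.2 (by assumption)) | exact DT.const (by assumption)) (by beta_reduce; repeat' with_reducible first | exact DT.proj _ | exact DT.zero | exact DT.one | apply DT.pr | apply DT.add | apply DT.mul | exact DT.const (Set.mem_univ _) | exact DT.const (SetLike.mem_coe.2 (by assumption)) | exact DT.const (by assumption))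
    · exact DP.comp3 hP (by beta_reduce; repeat' with_reducible first | exact DT.proj _ | exact DT.zero | exact DT.one | apply DT.pr | apply DT.add | apply DT.mul | exact DT.const (Set.mem_univ _) | exact DT.const (SetLike.mem_coe.2 (by assumption)) | exact DT.const (by assumption)) (by beta_reduce; repeat' with_reducible first | exact DT.proj _ | exact DT.zero | exact DT.one | apply DT.pr | apply DT.add | apply DT.mul | exact DT.const (Set.mem_univ _) | exact DT.const (SetLike.mem_coe.2 (by assumption)) | exact DT.const (by assumption)) (by beta_reduce; repeat' with_reducible first | exact DT.proj _ | exact DT.zero | exact DT.one | apply DT.pr | apply DT.add | apply DT.mul | exact DT.const (Set.mem_univ _) | exact DT.const (SetLike.mem_coe.2 (by assumption)) | exact DT.const (by assumption))) (pr m (pr m m))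
  refine ⟨c, fun a b d ha hb hd => ?_⟩
  rw [In3, hc _ (pr_mono ha (pr_mono hb hd))]
  constructor
  · rintro ⟨a', b', d', h, h'⟩
    obtain ⟨rfl, h2⟩ := pr_inj hN h
    obtain ⟨rfl, rfl⟩ := pr_inj hN h2
    exact h'
  · exact fun h => ⟨a, b, d, rfl, h⟩

/-- values are unique -/
lemma Val.unique (hN : IsPA N) {c a k k' : N} (h : Val c a k) (h' : Val c a k') : k = k' := by
  rcases hN.lt_or_le k k' with h1 | h1
  · exact absurd h.1 (h'.2 k h1)
  · rcases hN.lt_or_le k' k with h2 | h2
    · exact absurd h'.1 (h.2 k' h2)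
    · exact hN.le_antisymm h2 h1

/-- bounded definable functions are coded -/
theorem compF (hN : IsPA N) (P : N → N → Prop)
    (hP : DP Set.univ (fun v : Fin 2 → N => P (v 0) (v 1))) (m n : N)
    (h : ∀ a, Lt a m → ∃ k, Le k n ∧ P a k)
    (h' : ∀ a k k', Lt a m → P a k → P a k' → k = k') :
    ∃ c, ∀ a k, Lt a m → (Val c a k ↔ P a k) := by
  obtain ⟨c, hc⟩ := comp2 hN P hP (m + n)
  refine ⟨c, fun a k ha => ?_⟩
  obtain ⟨k0, hk0, hk0'⟩ := h a ha
  have ham : Le a (m + n) := by
    obtain ⟨z, hz⟩ := ha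
    exact ⟨z + 1 + n, by rw [← hz]; ring⟩
  have hn : ∀ {k}, Le k n → Le k (m + n) := by
    rintro k ⟨z, hz⟩
    exact ⟨z + m, by rw [← hz]; ring⟩
  have hval : Val c a k0 := by
    refine ⟨(hc a k0 ham (hn hk0)).2 hk0', fun k' hk' h1 => ?_⟩
    have hk'n : Le k' n := by
      obtain ⟨z, hz⟩ := hk'
      obtain ⟨y, hy⟩ := hk0
      exact ⟨z + 1 + y, by rw [← hy, ← hz]; ring⟩
    have h2 := (hc a k' ham (hn hk'n)).1 h1
    rw [h' a k' k0 ha h2 hk0'] at hk'
    exact hN.not_lt_self _ hk'
  constructor
  · intro h1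
    rw [Val.unique hN h1 hval]
    exact hk0'
  · intro h1
    rw [h' a k k0 ha h1 hk0']
    exact hval

end

end Pool.InterD
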