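import Pool.Agent.InterD.Code

/-!
# Combinatorics inside a model of PA: pigeonhole principle, greedy colouring, merging
-/

set_option linter.unusedTactic false
set_option linter.unreachableTactic false

open FirstOrder FirstOrder.Language FirstOrder.Ring

namespace Pool.InterD

open Pool.Interstr Pool.InterPA

section

variable {N : Type} [CommSemiring N] [Neg N] [CompatibleRing N]

omit [Neg N] [CompatibleRing N] in
lemma lt_succ_self (a : N) : Lt a (a + 1) := ⟨0, by ring⟩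

omit [Neg N] [CompatibleRing N] in
lemma lt_of_lt_of_le' {a b c : N} (h : Lt a b) (h' : Le b c) : Lt a c := by
  obtain ⟨z, rfl⟩ := h
  obtain ⟨w, rfl⟩ := h'
  exact ⟨z + w, by ring⟩

omit [Neg N] [CompatibleRing N] in
lemma lt_of_le_of_lt' {a b c : N} (h : Le a b) (h' : Lt b c) : Lt a c := by
  obtain ⟨z, rfl⟩ := h
  obtain ⟨w, rfl⟩ := h'
  exact ⟨z + w, by ring⟩

omit [Neg N] [CompatibleRing N] in
lemma le_of_lt' {a b : N} (h : Lt a b) : Le a b := by
  obtain ⟨z, rfl⟩ := h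
  exact ⟨z + 1, by ring⟩

omit [Neg N] [CompatibleRing N] in
lemma le_add_left' (a b : N) : Le b (a + b) := ⟨a, by ring⟩

/-- pigeonhole principle for coded functions -/
theorem php (hN : IsPA N) : ∀ n F : N, (∀ a c c', Lt a n → Le c n → Le c' n → In2 F a c →
    In2 F a c' → c = c') → ∃ c, Le c n ∧ ∀ a, Lt a n → ¬ In2 F a c := by
  refine ind1 hN (fun n : N => ∀ F, (∀ a c c', Lt a n → Le c n → Le c' n → In2 F a c →
    In2 F a c' → c = c') → ∃ c, Le c n ∧ ∀ a, Lt a n → ¬ In2 F a c) (by repeat' (beta_reduce; with_reducible first | apply DP.not | apply DP.all | apply DP.ex | apply DP.imp | apply DP.and | apply DP.or | apply DP.iff | apply DP.In3 | apply DP.In2 | apply DP.Val | apply DP.In | apply DP.le | apply DP.lt | apply DP.eq | exact DT.proj _ | exact DT.zero | exact DT.one | apply DT.pr | apply DT.add | apply DT.mul | exact DT.const (Set.mem_univ _) | exact DT.const (SetLike.mem_coe.2 (by assumption)) | exact DT.const (by assumption)))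 ?_ ?_
  · intro F _
    exact ⟨0, le_refl' 0, fun a ha => absurd ha (hN.not_lt_zero a)⟩
  · intro n ih F hF
    obtain ⟨F', hF'⟩ := comp2 hN (fun a c => In2 F a c ∨ (In2 F a (n + 1) ∧ In2 F n c))
      (by repeat' (beta_reduce; with_reducible first | apply DP.not | apply DP.all | apply DP.ex | apply DP.imp | apply DP.and | apply DP.or | apply DP.iff | apply DP.In3 | apply DP.In2 | apply DP.Val | apply DP.In | apply DP.le | apply DP.lt | apply DP.eq | exact DT.proj _ | exact DT.zero | exact DT.one | apply DT.pr | apply DT.add | apply DT.mul | exact DT.const (Set.mem_univ _) | exact DT.const (SetLike.mem_coe.2 (by assumption)) | exact DT.const (by assumption))) n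
    have hle : ∀ {c : N}, Le c n → Le c (n + 1) := fun h => le_trans' h ⟨1, rfl⟩
    have hlt : ∀ {c : N}, Lt c n → Lt c (n + 1) := fun h => lt_of_lt_of_le' h ⟨1, rfl⟩
    obtain ⟨c, hc, hc'⟩ := ih F' (by
      intro a c c' ha hc hc' h h'
      rw [hF' a c (le_of_lt' ha) hc] at h
      rw [hF' a c' (le_of_lt' ha) hc'] at h'
      rcases h with h | ⟨h1, h2⟩
      · rcases h' with h' | ⟨h1', h2'⟩
        · exact hF a c c' (hlt ha) (hle hc) (hle hc') h h'
        · exfalso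
          have := hF a c (n + 1) (hlt ha) (hle hc) (le_refl' _) h h1'
          rw [this] at hc
          exact hN.lt_asymm (lt_succ_self n) hc
      · rcases h' with h' | ⟨h1', h2'⟩
        · exfalso
          have := hF a c' (n + 1) (hlt ha) (hle hc') (le_refl' _) h' h1
          rw [this] at hc'
          exact hN.lt_asymm (lt_succ_self n) hc'
        · exact hF n c c' (lt_succ_self n) (hle hc) (hle hc') h2 h2')
    have hc1 : ∀ a, Lt a n → ¬ (In2 F a c ∨ (In2 F a (n + 1) ∧ In2 F n c)) := by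
      intro a ha
      rw [← hF' a c (le_of_lt' ha) hc]
      exact hc' a ha
    by_cases hnc : In2 F n c
    · refine ⟨n + 1, le_refl' _, fun a ha h => ?_⟩
      rcases hN.lt_succ_iff'.1 ha with h1 | rfl
      · exact hc1 a h1 (Or.inr ⟨h, hnc⟩)
      · have := hF a c (a + 1) ha (hle hc) (le_refl' _) hnc h
        rw [this] at hc
        exact hN.lt_asymm (lt_succ_self a) hc
    · refine ⟨c, hle hc, fun a ha h => ?_⟩
      rcases hN.lt_succ_iff'.1 ha with h1 | rfl
      · exact hc1 a h1 (Or.inl h)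
      · exact hnc h

/-- `Q` is a system of `n` partial functions on `[0, T)` whose union is symmetric. -/
abbrev Sys (n T Q : N) : Prop := ∀ j u v, Lt j n → Lt u T → Lt v T → In3 Q j u v →
  (∀ w, Lt w T → In3 Q j u w → v = w) ∧ ∃ j', Lt j' n ∧ In3 Q j' v u

/-- `χ` is a proper colouring. -/
abbrev Proper (n T Q χ : N) : Prop := ∀ j u v k, Lt j n → Lt u T → Lt v T → In3 Q j u v →
  Val χ u k → Val χ v k → u = v

/-- greedy colouring -/
theorem greedy (hN : IsPA N) {n T Q : N} (hQ : Sys n T Q) : ∀ t, Le t T →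
    ∃ χ, (∀ u, Lt u t → ∃ k, Le k n ∧ Val χ u k) ∧ Proper n t Q χ := by
  refine ind1 hN (fun t : N => Le t T → ∃ χ, (∀ u, Lt u t → ∃ k, Le k n ∧ Val χ u k) ∧
    Proper n t Q χ) (by repeat' (beta_reduce; with_reducible first | apply DP.not | apply DP.all | apply DP.ex | apply DP.imp | apply DP.and | apply DP.or | apply DP.iff | apply DP.In3 | apply DP.In2 | apply DP.Val | apply DP.In | apply DP.le | apply DP.lt | apply DP.eq | exact DT.proj _ | exact DT.zero | exact DT.one | apply DT.pr | apply DT.add | apply DT.mul | exact DT.const (Set.mem_univ _) | exact DT.const (SetLike.mem_coe.2 (by assumption)) | exact DT.const (by assumption))) ?_ ?_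
  · intro _
    exact ⟨0, fun u hu => absurd hu (hN.not_lt_zero u),
      fun _ u _ _ _ hu => absurd hu (hN.not_lt_zero u)⟩
  · intro t ih ht
    have htT : Lt t T := lt_of_lt_of_le' (lt_succ_self t) ht
    obtain ⟨χ, hχ, hχ'⟩ := ih (le_of_lt' htT)
    obtain ⟨F, hF⟩ := comp2 hN (fun a c => ∃ v, Lt v t ∧ In3 Q a t v ∧ Val χ v c) (by repeat' (beta_reduce; with_reducible first | apply DP.not | apply DP.all | apply DP.ex | apply DP.imp | apply DP.and | apply DP.or | apply DP.iff | apply DP.In3 | apply DP.In2 | apply DP.Val | apply DP.In | apply DP.le | apply DP.lt | apply DP.eq | exact DT.proj _ | exact DT.zero | exact DT.one | apply DT.pr | apply DT.add | apply DT.mul | exact DT.const (Set.mem_univ _) | exact DT.const (SetLike.mem_coe.2 (by assumption)) | exact DT.const (by assumption))) n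
    obtain ⟨c, hc, hc'⟩ := php hN n F (by
      intro a c c' ha hc hc' h h'
      rw [hF a c (le_of_lt' ha) hc] at h
      rw [hF a c' (le_of_lt' ha) hc'] at h'
      obtain ⟨v, hv, h1, h2⟩ := h
      obtain ⟨v', hv', h1', h2'⟩ := h'
      have hvT := lt_of_lt_of_le' hv (le_of_lt' htT)
      have hvT' := lt_of_lt_of_le' hv' (le_of_lt' htT)
      have := (hQ a t v ha htT hvT h1).1 v' hvT' h1'
      subst this
      exact Val.unique hN h2 h2')
    have hc1 : ∀ a, Lt a n → ¬ ∃ v, Lt v t ∧ In3 Q a t v ∧ Val χ v c := by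
      intro a ha
      rw [← hF a c (le_of_lt' ha) hc]
      exact hc' a ha
    obtain ⟨χ', hχ1⟩ := compF hN (fun u k => (Lt u t ∧ Val χ u k) ∨ (u = t ∧ k = c)) (by repeat' (beta_reduce; with_reducible first | apply DP.not | apply DP.all | apply DP.ex | apply DP.imp | apply DP.and | apply DP.or | apply DP.iff | apply DP.In3 | apply DP.In2 | apply DP.Val | apply DP.In | apply DP.le | apply DP.lt | apply DP.eq | exact DT.proj _ | exact DT.zero | exact DT.one | apply DT.pr | apply DT.add | apply DT.mul | exact DT.const (Set.mem_univ _) | exact DT.const (SetLike.mem_coe.2 (by assumption)) | exact DT.const (by assumption)))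
      (t + 1) n (by
        intro a ha
        rcases hN.lt_succ_iff'.1 ha with h1 | h1
        · obtain ⟨k, hk, hk'⟩ := hχ a h1
          exact ⟨k, hk, Or.inl ⟨h1, hk'⟩⟩
        · exact ⟨c, hc, Or.inr ⟨h1, rfl⟩⟩) (by
        rintro a k k' _ (⟨h1, h2⟩ | ⟨h1, h2⟩) (⟨h1', h2'⟩ | ⟨h1', h2'⟩)
        · exact Val.unique hN h2 h2'
        · rw [h1'] at h1
          exact absurd h1 (hN.not_lt_self t)
        · rw [h1] at h1'
          exact absurd h1' (hN.not_lt_self t)
        · rw [h2, h2'])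
    refine ⟨χ', ?_, ?_⟩
    · intro u hu
      rcases hN.lt_succ_iff'.1 hu with h1 | h1
      · obtain ⟨k, hk, hk'⟩ := hχ u h1
        exact ⟨k, hk, (hχ1 u k hu).2 (Or.inl ⟨h1, hk'⟩)⟩
      · exact ⟨c, hc, (hχ1 u c hu).2 (Or.inr ⟨h1, rfl⟩)⟩
    · intro j u v k hj hu hv h h1 h2
      rw [hχ1 u k hu] at h1
      rw [hχ1 v k hv] at h2
      rcases h1 with ⟨h1, h1'⟩ | ⟨h1, h1'⟩
      · rcases h2 with ⟨h2, h2'⟩ | ⟨h2, h2'⟩
        · exact hχ' j u v k hj h1 h2 h h1' h2'
        · exfalso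
          subst h2 h2'
          have huT := lt_of_lt_of_le' h1 (le_of_lt' htT)
          obtain ⟨j', hj', h3⟩ := (hQ j u v hj huT htT h).2
          exact hc1 j' hj' ⟨u, h1, h3, h1'⟩
      · rcases h2 with ⟨h2, h2'⟩ | ⟨h2, h2'⟩
        · exfalso
          subst h1 h1'
          exact hc1 j hj ⟨v, h2, h, h2'⟩
        · rw [h1, h2]

/-- `R` is a system of `s` partial injections of `[0, T)`. -/
abbrev PInj (s T R : N) : Prop := ∀ j u v, Lt j s → Lt u T → Lt v T → In3 R j u v →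
  (∀ w, Lt w T → In3 R j u w → v = w) ∧ (∀ w, Lt w T → In3 R j w v → u = w)

/-- `R'` is a part of `R` such that the edges with the same label agree in the colours of their
ends. -/
abbrev Pruned (s T R χ R' : N) : Prop := ∀ j, Lt j s → ∃ k k', ∀ u v, Lt u T → Lt v T →
  In3 R' j u v → In3 R j u v ∧ Val χ u k ∧ Val χ v k'

/-- `E` is an equivalence relation on `[0, T)`. -/
abbrev Eqv (T E : N) : Prop := (∀ u, Lt u T → In2 E u u) ∧
  (∀ u v, Lt u T → Lt v T → In2 E u v → In2 E v u) ∧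
  (∀ u v w, Lt u T → Lt v T → Lt w T → In2 E u v → In2 E v w → In2 E u w)

/-- merging the ends of the edges -/
theorem merge (hN : IsPA N) : ∀ i : N, ∃ n, ∀ T R, PInj i T R → ∃ Q, Sys n T Q ∧
    ∀ χ, Proper n T Q χ → ∀ R', Pruned i T R χ R' → ∃ E, Eqv T E ∧
      (∀ j u v, Lt j i → Lt u T → Lt v T → In3 R' j u v → In2 E u v) ∧
      (∀ u v, Lt u T → Lt v T → In2 E u v → ∃ j, Lt j n ∧ In3 Q j u v) := by
  have h01 : (0 : N) ≠ 1 := fun h => hN.succ_ne_zero 0 (by rw [zero_add]; exact h.symm)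
  have h12 : (1 : N) ≠ 1 + 1 := fun h => h01 (hN.add_left_cancel (c := 1) (by rw [add_zero]; exact h))
  have h02 : (0 : N) ≠ 1 + 1 := fun h => hN.succ_ne_zero _ h.symm
  refine ind1 hN (fun i : N => ∃ n, ∀ T R, PInj i T R → ∃ Q, Sys n T Q ∧
    ∀ χ, Proper n T Q χ → ∀ R', Pruned i T R χ R' → ∃ E, Eqv T E ∧
      (∀ j u v, Lt j i → Lt u T → Lt v T → In3 R' j u v → In2 E u v) ∧
      (∀ u v, Lt u T → Lt v T → In2 E u v → ∃ j, Lt j n ∧ In3 Q j u v)) (by repeat' (beta_reduce; with_reducible first | apply DP.not | apply DP.all | apply DP.ex | apply DP.imp | apply DP.and | apply DP.or | apply DP.iff | apply DP.In3 | apply DP.In2 | apply DP.Val | apply DP.In | apply DP.le | apply DP.lt | apply DP.eq | exact DT.proj _ | exact DT.zero | exact DT.one | apply DT.pr | apply DT.add | apply DT.mul | exact DT.const (Set.mem_univ _) | exact DT.const (SetLike.mem_coe.2 (by assumption)) | exact DT.const (by assumption))) ?_ ?_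
  · refine ⟨1, fun T R _ => ?_⟩
    obtain ⟨Q, hQ⟩ := comp3 hN (fun _ u v => u = v) (by repeat' (beta_reduce; with_reducible first | apply DP.not | apply DP.all | apply DP.ex | apply DP.imp | apply DP.and | apply DP.or | apply DP.iff | apply DP.In3 | apply DP.In2 | apply DP.Val | apply DP.In | apply DP.le | apply DP.lt | apply DP.eq | exact DT.proj _ | exact DT.zero | exact DT.one | apply DT.pr | apply DT.add | apply DT.mul | exact DT.const (Set.mem_univ _) | exact DT.const (SetLike.mem_coe.2 (by assumption)) | exact DT.const (by assumption))) (1 + T)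
    obtain ⟨E, hE⟩ := comp2 hN (fun u v => u = v) (by repeat' (beta_reduce; with_reducible first | apply DP.not | apply DP.all | apply DP.ex | apply DP.imp | apply DP.and | apply DP.or | apply DP.iff | apply DP.In3 | apply DP.In2 | apply DP.Val | apply DP.In | apply DP.le | apply DP.lt | apply DP.eq | exact DT.proj _ | exact DT.zero | exact DT.one | apply DT.pr | apply DT.add | apply DT.mul | exact DT.const (Set.mem_univ _) | exact DT.const (SetLike.mem_coe.2 (by assumption)) | exact DT.const (by assumption))) T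
    have hQ' : ∀ j u v, Lt j 1 → Lt u T → Lt v T → (In3 Q j u v ↔ u = v) := by
      intro j u v hj hu hv
      exact hQ j u v (le_trans' (le_of_lt' hj) (le_add_right' _ _))
        (le_trans' (le_of_lt' hu) (le_add_left' _ _)) (le_trans' (le_of_lt' hv) (le_add_left' _ _))
    have hE' : ∀ u v, Lt u T → Lt v T → (In2 E u v ↔ u = v) := by
      intro u v hu hv
      exact hE u v (le_of_lt' hu) (le_of_lt' hv)
    refine ⟨Q, ?_, fun χ _ R' _ => ⟨E, ⟨?_, ?_, ?_⟩, ?_, ?_⟩⟩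
    · intro j u v hj hu hv h
      have h1 := (hQ' j u v hj hu hv).1 h
      refine ⟨fun w hw h' => ?_, j, hj, (hQ' j v u hj hv hu).2 h1.symm⟩
      rw [← h1]
      exact (hQ' j u w hj hu hw).1 h'
    · intro u hu
      exact (hE' u u hu hu).2 rfl
    · intro u v hu hv h
      exact (hE' v u hv hu).2 ((hE' u v hu hv).1 h).symm
    · intro u v w hu hv hw h h'
      exact (hE' u w hu hw).2 (((hE' u v hu hv).1 h).trans ((hE' v w hv hw).1 h'))
    · intro j u v hj
      exact absurd hj (hN.not_lt_zero j)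
    · intro u v hu hv h
      have h1 : Lt (0 : N) 1 := ⟨0, by ring⟩
      exact ⟨0, h1, (hQ' 0 u v h1 hu hv).2 ((hE' u v hu hv).1 h)⟩
  · rintro i ⟨n, hn⟩
    refine ⟨pr (1 + 1) (pr n n) + 1, fun T R hR => ?_⟩
    have hlt : ∀ {j : N}, Lt j i → Lt j (i + 1) := fun h => lt_of_lt_of_le' h ⟨1, rfl⟩
    obtain ⟨Q, hQ, hQE⟩ := hn T R (fun j u v hj => hR j u v (hlt hj))
    have hbd : ∀ {c a b : N}, Le c (1 + 1) → Lt a n → Lt b n →
        Lt (pr c (pr a b)) (pr (1 + 1) (pr n n) + 1) := fun hc ha hb =>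
      hN.lt_succ_iff.2 (pr_mono hc (pr_mono (le_of_lt' ha) (le_of_lt' hb)))
    have hc0 : Le (0 : N) (1 + 1) := ⟨1 + 1, by ring⟩
    have hc1 : Le (1 : N) (1 + 1) := ⟨1, rfl⟩
    have hc2 : Le (1 + 1 : N) (1 + 1) := le_refl' _
    obtain ⟨Q', hQ0⟩ := comp3 hN (fun j u v =>
      (∃ ω, Lt ω n ∧ j = pr 0 (pr ω ω) ∧ In3 Q ω u v) ∨
      (∃ ω ω', Lt ω n ∧ Lt ω' n ∧ j = pr 1 (pr ω ω') ∧ ∃ a b, Lt a T ∧ Lt b T ∧ In3 Q ω u a ∧
        In3 R i a b ∧ In3 Q ω' b v) ∨
      (∃ ω ω', Lt ω n ∧ Lt ω' n ∧ j = pr (1 + 1) (pr ω ω') ∧ ∃ a b, Lt a T ∧ Lt b T ∧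
        In3 Q ω u b ∧ In3 R i a b ∧ In3 Q ω' a v)) (by repeat' (beta_reduce; with_reducible first | apply DP.not | apply DP.all | apply DP.ex | apply DP.imp | apply DP.and | apply DP.or | apply DP.iff | apply DP.In3 | apply DP.In2 | apply DP.Val | apply DP.In | apply DP.le | apply DP.lt | apply DP.eq | exact DT.proj _ | exact DT.zero | exact DT.one | apply DT.pr | apply DT.add | apply DT.mul | exact DT.const (Set.mem_univ _) | exact DT.const (SetLike.mem_coe.2 (by assumption)) | exact DT.const (by assumption))) (pr (1 + 1) (pr n n) + 1 + T)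
    have hQ' : ∀ j u v, Lt j (pr (1 + 1) (pr n n) + 1) → Lt u T → Lt v T → (In3 Q' j u v ↔
      ((∃ ω, Lt ω n ∧ j = pr 0 (pr ω ω) ∧ In3 Q ω u v) ∨
      (∃ ω ω', Lt ω n ∧ Lt ω' n ∧ j = pr 1 (pr ω ω') ∧ ∃ a b, Lt a T ∧ Lt b T ∧ In3 Q ω u a ∧
        In3 R i a b ∧ In3 Q ω' b v) ∨
      (∃ ω ω', Lt ω n ∧ Lt ω' n ∧ j = pr (1 + 1) (pr ω ω') ∧ ∃ a b, Lt a T ∧ Lt b T ∧
        In3 Q ω u b ∧ In3 R i a b ∧ In3 Q ω' a v))) := by
      intro j u v hj hu hv
      exact hQ0 j u v (le_trans' (le_of_lt' hj) (le_add_right' _ _))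
        (le_trans' (le_of_lt' hu) (le_add_left' _ _)) (le_trans' (le_of_lt' hv) (le_add_left' _ _))
    -- the three kinds of edges
    have e0 : ∀ {ω u v}, Lt ω n → Lt u T → Lt v T → In3 Q ω u v → In3 Q' (pr 0 (pr ω ω)) u v :=
      fun hω hu hv h => (hQ' _ _ _ (hbd hc0 hω hω) hu hv).2 (Or.inl ⟨_, hω, rfl, h⟩)
    have e1 : ∀ {ω ω' u v a b}, Lt ω n → Lt ω' n → Lt u T → Lt v T → Lt a T → Lt b T →
        In3 Q ω u a → In3 R i a b → In3 Q ω' b v → In3 Q' (pr 1 (pr ω ω')) u v :=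
      fun hω hω' hu hv ha hb h1 h2 h3 => (hQ' _ _ _ (hbd hc1 hω hω') hu hv).2
        (Or.inr (Or.inl ⟨_, _, hω, hω', rfl, _, _, ha, hb, h1, h2, h3⟩))
    have e2 : ∀ {ω ω' u v a b}, Lt ω n → Lt ω' n → Lt u T → Lt v T → Lt a T → Lt b T →
        In3 Q ω u b → In3 R i a b → In3 Q ω' a v → In3 Q' (pr (1 + 1) (pr ω ω')) u v :=
      fun hω hω' hu hv ha hb h1 h2 h3 => (hQ' _ _ _ (hbd hc2 hω hω') hu hv).2
        (Or.inr (Or.inr ⟨_, _, hω, hω', rfl, _, _, ha, hb, h1, h2, h3⟩))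
    refine ⟨Q', ?_, ?_⟩
    · intro j u v hj hu hv h
      rw [hQ' j u v hj hu hv] at h
      rcases h with ⟨ω, hω, hj1, h⟩ | ⟨ω, ω', hω, hω', hj1, a, b, ha, hb, h1, h2, h3⟩ |
        ⟨ω, ω', hω, hω', hj1, a, b, ha, hb, h1, h2, h3⟩
      · refine ⟨fun w hw h' => ?_, ?_⟩
        · rw [hQ' j u w hj hu hw] at h'
          rcases h' with ⟨ρ, hρ, hj2, h'⟩ | ⟨ρ, ρ', hρ, hρ', hj2, _⟩ | ⟨ρ, ρ', hρ, hρ', hj2, _⟩
          · have h4 := pr_inj hN (pr_inj hN (hj1.symm.trans hj2)).2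
            rw [← h4.1] at h'
            exact (hQ ω u v hω hu hv h).1 w hw h'
          · exact absurd (pr_inj hN (hj1.symm.trans hj2)).1 h01
          · exact absurd (pr_inj hN (hj1.symm.trans hj2)).1 h02
        · obtain ⟨j', hj', h'⟩ := (hQ ω u v hω hu hv h).2
          exact ⟨_, hbd hc0 hj' hj', e0 hj' hv hu h'⟩
      · refine ⟨fun w hw h' => ?_, ?_⟩
        · rw [hQ' j u w hj hu hw] at h'
          rcases h' with ⟨ρ, hρ, hj2, h'⟩ | ⟨ρ, ρ', hρ, hρ', hj2, a', b', ha', hb', h1', h2', h3'⟩ |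
            ⟨ρ, ρ', hρ, hρ', hj2, _⟩
          · exact absurd (pr_inj hN (hj1.symm.trans hj2)).1.symm h01
          · have h4 := pr_inj hN (pr_inj hN (hj1.symm.trans hj2)).2
            rw [← h4.1] at h1'
            rw [← h4.2] at h3'
            have h5 := (hQ ω u a hω hu ha h1).1 a' ha' h1'
            rw [← h5] at h2'
            have h6 := (hR i a b (lt_succ_self i) ha hb h2).1 b' hb' h2'
            rw [← h6] at h3'
            exact (hQ ω' b v hω' hb hv h3).1 w hw h3'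
          · exact absurd (pr_inj hN (hj1.symm.trans hj2)).1 h12
        · obtain ⟨ρ, hρ, h1'⟩ := (hQ ω u a hω hu ha h1).2
          obtain ⟨ρ', hρ', h3'⟩ := (hQ ω' b v hω' hb hv h3).2
          exact ⟨_, hbd hc2 hρ' hρ, e2 hρ' hρ hv hu ha hb h3' h2 h1'⟩
      · refine ⟨fun w hw h' => ?_, ?_⟩
        · rw [hQ' j u w hj hu hw] at h'
          rcases h' with ⟨ρ, hρ, hj2, h'⟩ | ⟨ρ, ρ', hρ, hρ', hj2, _⟩ |
            ⟨ρ, ρ', hρ, hρ', hj2, a', b', ha', hb', h1', h2', h3'⟩
          · exact absurd (pr_inj hN (hj1.symm.trans hj2)).1.symm h02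
          · exact absurd (pr_inj hN (hj1.symm.trans hj2)).1.symm h12
          · have h4 := pr_inj hN (pr_inj hN (hj1.symm.trans hj2)).2
            rw [← h4.1] at h1'
            rw [← h4.2] at h3'
            have h5 := (hQ ω u b hω hu hb h1).1 b' hb' h1'
            rw [← h5] at h2'
            have h6 := (hR i a b (lt_succ_self i) ha hb h2).2 a' ha' h2'
            rw [← h6] at h3'
            exact (hQ ω' a v hω' ha hv h3).1 w hw h3'
        · obtain ⟨ρ, hρ, h1'⟩ := (hQ ω u b hω hu hb h1).2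
          obtain ⟨ρ', hρ', h3'⟩ := (hQ ω' a v hω' ha hv h3).2
          exact ⟨_, hbd hc1 hρ' hρ, e1 hρ' hρ hv hu ha hb h3' h2 h1'⟩
    · intro χ hχ R' hR'
      have hχQ : Proper n T Q χ := fun j u v k hj hu hv h =>
        hχ _ u v k (hbd hc0 hj hj) hu hv (e0 hj hu hv h)
      obtain ⟨E, ⟨hE0, hE1, hE2⟩, hE3, hE4⟩ := hQE χ hχQ R' (fun j hj => hR' j (hlt hj))
      obtain ⟨k, k', hk⟩ := hR' i (lt_succ_self i)
      let r : N → N → Prop := fun u v => Lt u T ∧ Lt v T ∧ In2 E u v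
      have rs : ∀ {u v}, r u v → r v u := fun h => ⟨h.2.1, h.1, hE1 _ _ h.1 h.2.1 h.2.2⟩
      have rt : ∀ {u v w}, r u v → r v w → r u w := fun h h' =>
        ⟨h.1, h'.2.1, hE2 _ _ _ h.1 h.2.1 h'.2.1 h.2.2 h'.2.2⟩
      -- edges of label `i`
      let ed : N → N → Prop := fun a b => Lt a T ∧ Lt b T ∧ In3 R' i a b
      have fsame : ∀ {u v l}, r u v → Val χ u l → Val χ v l → u = v := by
        intro u v l h hu hv
        obtain ⟨j, hj, h1⟩ := hE4 u v h.1 h.2.1 h.2.2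
        exact hχQ j u v l hj h.1 h.2.1 h1 hu hv
      have fdet : ∀ {a b b'}, ed a b → ed a b' → b = b' := by
        intro a b b' h h'
        exact (hR i a b (lt_succ_self i) h.1 h.2.1 (hk a b h.1 h.2.1 h.2.2).1).1 b' h'.2.1
          (hk a b' h'.1 h'.2.1 h'.2.2).1
      have finj : ∀ {a a' b}, ed a b → ed a' b → a = a' := by
        intro a a' b h h'
        exact (hR i a b (lt_succ_self i) h.1 h.2.1 (hk a b h.1 h.2.1 h.2.2).1).2 a' h'.1
          (hk a' b h'.1 h'.2.1 h'.2.2).1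
      have fA : ∀ {a b a' b'}, ed a b → ed a' b' → r b a' → a = a' := by
        intro a b a' b' h h' hr
        obtain ⟨ω, hω, h1⟩ := hE4 a a h.1 h.1 (hE0 a h.1)
        obtain ⟨ω', hω', h2⟩ := hE4 b a' hr.1 hr.2.1 hr.2.2
        have h3 := hk a b h.1 h.2.1 h.2.2
        have h4 := hk a' b' h'.1 h'.2.1 h'.2.2
        exact hχ _ a a' k (hbd hc1 hω hω') h.1 h'.1
          (e1 hω hω' h.1 h'.1 h.1 h.2.1 h1 h3.1 h2) h3.2.1 h4.2.1
      have fB : ∀ {a b a' b'}, ed a b → ed a' b' → r a a' → a = a' := by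
        intro a b a' b' h h' hr
        exact fsame hr (hk a b h.1 h.2.1 h.2.2).2.1 (hk a' b' h'.1 h'.2.1 h'.2.2).2.1
      have fC : ∀ {a b a' b'}, ed a b → ed a' b' → r b b' → b = b' := by
        intro a b a' b' h h' hr
        exact fsame hr (hk a b h.1 h.2.1 h.2.2).2.2 (hk a' b' h'.1 h'.2.1 h'.2.2).2.2
      obtain ⟨E', hE'0⟩ := comp2 hN (fun u v => In2 E u v ∨ ∃ a b, Lt a T ∧ Lt b T ∧
        In3 R' i a b ∧ ((In2 E u a ∧ In2 E b v) ∨ (In2 E u b ∧ In2 E a v))) (by repeat' (beta_reduce; with_reducible first | apply DP.not | apply DP.all | apply DP.ex | apply DP.imp | apply DP.and | apply DP.or | apply DP.iff | apply DP.In3 | apply DP.In2 | apply DP.Val | apply DP.In | apply DP.le | apply DP.lt | apply DP.eq | exact DT.proj _ | exact DT.zero | exact DT.one | apply DT.pr | apply DT.add | apply DT.mul | exact DT.const (Set.mem_univ _) | exact DT.const (SetLike.mem_coe.2 (by assumption)) | exact DT.const (by assumption))) T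
      have hE' : ∀ u v, Lt u T → Lt v T → (In2 E' u v ↔ (r u v ∨ ∃ a b, ed a b ∧
          ((r u a ∧ r b v) ∨ (r u b ∧ r a v)))) := by
        intro u v hu hv
        rw [hE'0 u v (le_of_lt' hu) (le_of_lt' hv)]
        constructor
        · rintro (h | ⟨a, b, ha, hb, h1, (⟨h2, h3⟩ | ⟨h2, h3⟩)⟩)
          · exact Or.inl ⟨hu, hv, h⟩
          · exact Or.inr ⟨a, b, ⟨ha, hb, h1⟩, Or.inl ⟨⟨hu, ha, h2⟩, ⟨hb, hv, h3⟩⟩⟩
          · exact Or.inr ⟨a, b, ⟨ha, hb, h1⟩, Or.inr ⟨⟨hu, hb, h2⟩, ⟨ha, hv, h3⟩⟩⟩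
        · rintro (h | ⟨a, b, ⟨ha, hb, h1⟩, (⟨h2, h3⟩ | ⟨h2, h3⟩)⟩)
          · exact Or.inl h.2.2
          · exact Or.inr ⟨a, b, ha, hb, h1, Or.inl ⟨h2.2.2, h3.2.2⟩⟩
          · exact Or.inr ⟨a, b, ha, hb, h1, Or.inr ⟨h2.2.2, h3.2.2⟩⟩
      refine ⟨E', ⟨?_, ?_, ?_⟩, ?_, ?_⟩
      · intro u hu
        exact (hE' u u hu hu).2 (Or.inl ⟨hu, hu, hE0 u hu⟩)
      · intro u v hu hv h
        rw [hE' u v hu hv] at h
        rw [hE' v u hv hu]
        rcases h with h | ⟨a, b, h1, (⟨h2, h3⟩ | ⟨h2, h3⟩)⟩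
        · exact Or.inl (rs h)
        · exact Or.inr ⟨a, b, h1, Or.inr ⟨rs h3, rs h2⟩⟩
        · exact Or.inr ⟨a, b, h1, Or.inl ⟨rs h3, rs h2⟩⟩
      · intro u v w hu hv hw h h'
        rw [hE' u v hu hv] at h
        rw [hE' v w hv hw] at h'
        rw [hE' u w hu hw]
        rcases h with h | ⟨a, b, h1, (⟨h2, h3⟩ | ⟨h2, h3⟩)⟩ <;>
          rcases h' with h' | ⟨a', b', h1', (⟨h2', h3'⟩ | ⟨h2', h3'⟩)⟩
        · exact Or.inl (rt h h')
        · exact Or.inr ⟨a', b', h1', Or.inl ⟨rt h h2', h3'⟩⟩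
        · exact Or.inr ⟨a', b', h1', Or.inr ⟨rt h h2', h3'⟩⟩
        · exact Or.inr ⟨a, b, h1, Or.inl ⟨h2, rt h3 h'⟩⟩
        · have e := fA h1 h1' (rt h3 h2')
          subst e
          have e' := fdet h1 h1'
          subst e'
          exact Or.inl (rt h2 (rt (rs h2') (rt (rs h3) h3')))
        · have e := fC h1 h1' (rt h3 h2')
          subst e
          have e' := finj h1 h1'
          subst e'
          exact Or.inl (rt h2 h3')
        · exact Or.inr ⟨a, b, h1, Or.inr ⟨h2, rt h3 h'⟩⟩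
        · have e := fB h1 h1' (rt h3 h2')
          subst e
          have e' := fdet h1 h1'
          subst e'
          exact Or.inl (rt h2 h3')
        · have e := fA h1' h1 (rs (rt h3 h2'))
          subst e
          have e' := fdet h1 h1'
          subst e'
          exact Or.inl (rt h2 (rt (rs h2') (rt (rs h3) h3')))
      · intro j u v hj hu hv h
        rw [hE' u v hu hv]
        rcases hN.lt_succ_iff'.1 hj with h1 | rfl
        · exact Or.inl ⟨hu, hv, hE3 j u v h1 hu hv h⟩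
        · exact Or.inr ⟨u, v, ⟨hu, hv, h⟩, Or.inl ⟨⟨hu, hu, hE0 u hu⟩, ⟨hv, hv, hE0 v hv⟩⟩⟩
      · intro u v hu hv h
        rw [hE' u v hu hv] at h
        rcases h with h | ⟨a, b, h1, (⟨h2, h3⟩ | ⟨h2, h3⟩)⟩
        · obtain ⟨j, hj, h1⟩ := hE4 u v h.1 h.2.1 h.2.2
          exact ⟨_, hbd hc0 hj hj, e0 hj hu hv h1⟩
        · obtain ⟨ω, hω, h4⟩ := hE4 u a h2.1 h2.2.1 h2.2.2
          obtain ⟨ω', hω', h5⟩ := hE4 b v h3.1 h3.2.1 h3.2.2
          exact ⟨_, hbd hc1 hω hω', e1 hω hω' hu hv h1.1 h1.2.1 h4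
            (hk a b h1.1 h1.2.1 h1.2.2).1 h5⟩
        · obtain ⟨ω, hω, h4⟩ := hE4 u b h2.1 h2.2.1 h2.2.2
          obtain ⟨ω', hω', h5⟩ := hE4 a v h3.1 h3.2.1 h3.2.2
          exact ⟨_, hbd hc2 hω hω', e2 hω hω' hu hv h1.1 h1.2.1 h4
            (hk a b h1.1 h1.2.1 h1.2.2).1 h5⟩

/-- **The colouring lemma.** -/
theorem colouring (hN : IsPA N) (s : N) : ∃ n, ∀ T R, PInj s T R → ∃ χ,
    (∀ u, Lt u T → ∃ k, Le k n ∧ Val χ u k) ∧ ∀ R', Pruned s T R χ R' → ∃ E, Eqv T E ∧
      (∀ j u v, Lt j s → Lt u T → Lt v T → In3 R' j u v → In2 E u v) ∧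
      (∀ u v k, Lt u T → Lt v T → In2 E u v → Val χ u k → Val χ v k → u = v) := by
  obtain ⟨n, hn⟩ := merge hN s
  refine ⟨n, fun T R hR => ?_⟩
  obtain ⟨Q, hQ, hQE⟩ := hn T R hR
  obtain ⟨χ, hχ, hχ'⟩ := greedy hN hQ T (le_refl' T)
  refine ⟨χ, hχ, fun R' hR' => ?_⟩
  obtain ⟨E, hE, hE1, hE2⟩ := hQE χ hχ' R' hR'
  refine ⟨E, hE, hE1, fun u v k hu hv h h1 h2 => ?_⟩
  obtain ⟨j, hj, h3⟩ := hE2 u v hu hv h
  exact hχ' j u v k hj hu hv h3 h1 h2

end

end Pool.InterD
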