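import Pool.Agent.InterPA.Modular

/-!
# Definability of predicates over a set of parameters, with closure properties
-/

open FirstOrder FirstOrder.Language FirstOrder.Ring

namespace Pool.InterD

open Pool.Interstr Pool.InterPA

section

variable {N : Type} [CommSemiring N] [Neg N] [CompatibleRing N]

/-- `P` is definable with parameters in `Z`. -/
def DP (Z : Set N) {ι : Type} (P : (ι → N) → Prop) : Prop :=
  ∃ φ : Language.ring.Formula (Z ⊕ ι), ∀ v : ι → N,
    P v ↔ φ.Realize (Sum.elim (fun z : Z => (z : N)) v)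

/-- `t` is given by a term with parameters in `Z`. -/
def DT (Z : Set N) {ι : Type} (t : (ι → N) → N) : Prop :=
  ∃ τ : Language.ring.Term (Z ⊕ ι), ∀ v : ι → N,
    t v = τ.realize (Sum.elim (fun z : Z => (z : N)) v)

variable {Z : Set N} {ι : Type}

lemma DT.proj (i : ι) : DT Z (fun v : ι → N => v i) :=
  ⟨Term.var (Sum.inr i), fun v => by simp⟩

lemma DT.const {a : N} (ha : a ∈ Z) : DT Z (fun _ : ι → N => a) :=
  ⟨Term.var (Sum.inl ⟨a, ha⟩), fun v => by simp⟩

lemma DT.zero : DT Z (fun _ : ι → N => (0 : N)) := ⟨0, fun v => by simp⟩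

lemma DT.one : DT Z (fun _ : ι → N => (1 : N)) := ⟨1, fun v => by simp⟩

lemma DT.add {s t : (ι → N) → N} (hs : DT Z s) (ht : DT Z t) : DT Z (fun v => s v + t v) := by
  obtain ⟨σ, hσ⟩ := hs
  obtain ⟨τ, hτ⟩ := ht
  exact ⟨σ + τ, fun v => by beta_reduce; rw [hσ, hτ, realize_add]⟩

lemma DT.mul {s t : (ι → N) → N} (hs : DT Z s) (ht : DT Z t) : DT Z (fun v => s v * t v) := by
  obtain ⟨σ, hσ⟩ := hs
  obtain ⟨τ, hτ⟩ := ht
  exact ⟨σ * τ, fun v => by beta_reduce; rw [hσ, hτ, realize_mul]⟩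

lemma DP.eq {s t : (ι → N) → N} (hs : DT Z s) (ht : DT Z t) : DP Z (fun v => s v = t v) := by
  obtain ⟨σ, hσ⟩ := hs
  obtain ⟨τ, hτ⟩ := ht
  exact ⟨Term.equal σ τ, fun v => by beta_reduce; rw [hσ, hτ, Formula.realize_equal]⟩

lemma DP.and {P Q : (ι → N) → Prop} (hP : DP Z P) (hQ : DP Z Q) : DP Z (fun v => P v ∧ Q v) := by
  obtain ⟨φ, hφ⟩ := hP
  obtain ⟨ψ, hψ⟩ := hQ
  exact ⟨φ ⊓ ψ, fun v => by beta_reduce; rw [hφ, hψ, Formula.realize_inf]⟩

lemma DP.or {P Q : (ι → N) → Prop} (hP : DP Z P) (hQ : DP Z Q) : DP Z (fun v => P v ∨ Q v) := by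
  obtain ⟨φ, hφ⟩ := hP
  obtain ⟨ψ, hψ⟩ := hQ
  exact ⟨φ ⊔ ψ, fun v => by beta_reduce; rw [hφ, hψ, Formula.realize_sup]⟩

lemma DP.not {P : (ι → N) → Prop} (hP : DP Z P) : DP Z (fun v => ¬ P v) := by
  obtain ⟨φ, hφ⟩ := hP
  exact ⟨φ.not, fun v => by beta_reduce; rw [hφ, Formula.realize_not]⟩

lemma DP.imp {P Q : (ι → N) → Prop} (hP : DP Z P) (hQ : DP Z Q) :
    DP Z (fun v => P v → Q v) := by
  obtain ⟨φ, hφ⟩ := hP
  obtain ⟨ψ, hψ⟩ := hQ
  exact ⟨φ.imp ψ, fun v => by beta_reduce; rw [hφ, hψ, Formula.realize_imp]⟩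

lemma DP.iff {P Q : (ι → N) → Prop} (hP : DP Z P) (hQ : DP Z Q) :
    DP Z (fun v => (P v ↔ Q v)) := by
  obtain ⟨φ, hφ⟩ := hP
  obtain ⟨ψ, hψ⟩ := hQ
  exact ⟨φ.iff ψ, fun v => by beta_reduce; rw [hφ, hψ, Formula.realize_iff]⟩

lemma DP.ex {P : (ι → N) → N → Prop}
    (h : DP Z (fun w : Option ι → N => P (fun i => w (some i)) (w none))) :
    DP Z (fun v => ∃ x, P v x) := by
  obtain ⟨φ, hφ⟩ := h
  refine ⟨((φ.relabel (Sum.elim (fun z => Sum.inl (Sum.inl z))
    (fun o => o.elim (Sum.inr 0) (fun i => Sum.inl (Sum.inr i)))) :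
      Language.ring.Formula ((Z ⊕ ι) ⊕ Fin 1)).iExs (Fin 1)), fun v => ?_⟩
  rw [Formula.realize_iExs, exists_fin_one]
  refine exists_congr fun x => ?_
  rw [Formula.realize_relabel]
  have h1 := hφ (fun o => o.elim x v)
  simp only [Option.elim_some, Option.elim_none] at h1
  rw [h1]
  refine iff_of_eq (congrArg _ ?_)
  funext i
  rcases i with i | i
  · simp
  · rcases i with _ | i <;> simp

lemma DP.all {P : (ι → N) → N → Prop}
    (h : DP Z (fun w : Option ι → N => P (fun i => w (some i)) (w none))) :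
    DP Z (fun v => ∀ x, P v x) := by
  have h1 : DP Z (fun v => ¬ ∃ x, ¬ P v x) := DP.not (DP.ex (DP.not h))
  simpa using h1

lemma DP.mono {Z' : Set N} (hZ : Z ⊆ Z') {P : (ι → N) → Prop} (hP : DP Z P) : DP Z' P := by
  obtain ⟨φ, hφ⟩ := hP
  refine ⟨φ.relabel (Sum.map (Set.inclusion hZ) id), fun v => ?_⟩
  beta_reduce
  rw [hφ, Formula.realize_relabel]
  refine iff_of_eq (congrArg _ ?_)
  funext i
  rcases i with i | i <;> simp

lemma DP.rel (g : ι → ι) {P : (ι → N) → Prop} (hP : DP Z P) : DP Z (fun v => P (v ∘ g)) := by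
  obtain ⟨φ, hφ⟩ := hP
  refine ⟨φ.relabel (Sum.map id g), fun v => ?_⟩
  beta_reduce
  rw [hφ, Formula.realize_relabel]
  refine iff_of_eq (congrArg _ ?_)
  funext i
  rcases i with i | i <;> simp

/-- substitution of variables -/
lemma DP.subst {κ : Type} (g : κ → ι) {P : (κ → N) → Prop} (hP : DP Z P) :
    DP Z (fun v : ι → N => P (fun k => v (g k))) := by
  obtain ⟨φ, hφ⟩ := hP
  refine ⟨φ.relabel (Sum.map id g), fun v => ?_⟩
  beta_reduce
  rw [hφ, Formula.realize_relabel]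
  refine iff_of_eq (congrArg _ ?_)
  funext i
  rcases i with i | i <;> simp

/-- composition of a ternary relation with terms -/
lemma DP.comp3 {R : N → N → N → Prop} (hR : DP Z (fun v : Fin 3 → N => R (v 0) (v 1) (v 2)))
    {a b c : (ι → N) → N} (ha : DT Z a) (hb : DT Z b) (hc : DT Z c) :
    DP Z (fun v => R (a v) (b v) (c v)) := by
  obtain ⟨φ, hφ⟩ := hR
  obtain ⟨α, hα⟩ := ha
  obtain ⟨β, hβ⟩ := hb
  obtain ⟨γ, hγ⟩ := hc
  refine ⟨BoundedFormula.subst φ (Sum.elim (fun z => Term.var (Sum.inl z)) ![α, β, γ]),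
    fun v => ?_⟩
  have h1 := hφ ![a v, b v, c v]
  simp only [Matrix.cons_val_zero, Matrix.cons_val_one, Matrix.cons_val_two, Matrix.tail_cons,
    Matrix.head_cons] at h1
  have h2 : R (a v) (b v) (c v) ↔
      φ.Realize (Sum.elim (fun z : Z => (z : N)) ![a v, b v, c v]) := by
    simpa using h1
  beta_reduce
  rw [h2, Formula.Realize, Formula.Realize, BoundedFormula.realize_subst]
  refine iff_of_eq (congrArg (fun u => BoundedFormula.Realize φ u default) ?_)
  funext i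
  rcases i with i | i
  · simp
  · fin_cases i
    · simp [hα]
    · simp [hβ]
    · simp [hγ]

/-- composition of a binary relation with terms -/
lemma DP.comp2 {R : N → N → Prop} (hR : DP Z (fun v : Fin 2 → N => R (v 0) (v 1)))
    {a b : (ι → N) → N} (ha : DT Z a) (hb : DT Z b) :
    DP Z (fun v => R (a v) (b v)) := by
  have h : DP Z (fun v : Fin 3 → N => (fun x y _ => R x y : N → N → N → Prop) (v 0) (v 1) (v 2)) :=
    DP.subst (ι := Fin 3) (fun i : Fin 2 => if i = 0 then (0 : Fin 3) else 1) hR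
  exact DP.comp3 (R := fun x y _ => R x y) h ha hb hb

/-- composition of a unary relation with terms -/
lemma DP.comp1 {R : N → Prop} (hR : DP Z (fun v : Fin 1 → N => R (v 0)))
    {a : (ι → N) → N} (ha : DT Z a) :
    DP Z (fun v => R (a v)) := by
  have h : DP Z (fun v : Fin 3 → N => (fun x _ _ => R x : N → N → N → Prop) (v 0) (v 1) (v 2)) :=
    DP.subst (ι := Fin 3) (fun _ : Fin 1 => (0 : Fin 3)) hR
  exact DP.comp3 (R := fun x _ _ => R x) h ha ha ha

lemma DP.le {s t : (ι → N) → N} (hs : DT Z s) (ht : DT Z t) : DP Z (fun v => Le (s v) (t v)) := by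
  obtain ⟨σ, hσ⟩ := hs
  obtain ⟨τ, hτ⟩ := ht
  exact ⟨leF σ τ, fun v => by beta_reduce; rw [hσ, hτ, realize_le]⟩

lemma DP.lt {s t : (ι → N) → N} (hs : DT Z s) (ht : DT Z t) : DP Z (fun v => Lt (s v) (t v)) := by
  obtain ⟨σ, hσ⟩ := hs
  obtain ⟨τ, hτ⟩ := ht
  exact ⟨ltF σ τ, fun v => by beta_reduce; rw [hσ, hτ, realize_lt]⟩

lemma DP.dvd {s t : (ι → N) → N} (hs : DT Z s) (ht : DT Z t) :
    DP Z (fun v => Dvd' (s v) (t v)) := by
  obtain ⟨σ, hσ⟩ := hs
  obtain ⟨τ, hτ⟩ := ht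
  exact ⟨dvdF σ τ, fun v => by beta_reduce; rw [hσ, hτ, realize_dvdF, Dvd']⟩

/-! ### pairs and codes -/

/-- pairs -/
def pr (a b : N) : N := (a + b) * (a + b) + a

omit [Neg N] [CompatibleRing N] in
lemma pr_mono {a b c d : N} (h1 : Le a c) (h2 : Le b d) : Le (pr a b) (pr c d) :=
  le_add (le_mul (le_add h1 h2) (le_add h1 h2)) h1

lemma DT.pr {s t : (ι → N) → N} (hs : DT Z s) (ht : DT Z t) :
    DT Z (fun v => Pool.InterD.pr (s v) (t v)) :=
  DT.add (DT.mul (DT.add hs ht) (DT.add hs ht)) hs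

/-- membership in the coded set -/
def In (c j : N) : Prop := ∃ q s, c = pr q s ∧ Dvd' (1 + (j + 1) * q) s

/-- membership in the coded binary relation -/
def In2 (c a b : N) : Prop := In c (pr a b)

/-- membership in the coded ternary relation -/
def In3 (c a b d : N) : Prop := In c (pr a (pr b d))

/-- `k` is the value at `a` of the coded function -/
def Val (c a k : N) : Prop := In2 c a k ∧ ∀ k', Lt k' k → ¬ In2 c a k'

end

end Pool.InterD
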