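import Pool.Agent.Interstr.N5

/-!
# The lattice `D ∪ {x, y, 1}`
-/

namespace Pool.InterD

/-- `D` with new elements `cx` (above the elements below `a`), `cy` (above the elements below `b`)
and a new top `tt`. -/
inductive TC {D : Type} (a b : D) : Type
  | emb : D → TC a b
  | cx : TC a b
  | cy : TC a b
  | tt : TC a b

namespace TC

variable {D : Type} [Lattice D] {a b : D}

/-- The order. -/
protected def le : TC a b → TC a b → Prop
  | _, tt => True
  | emb k, emb l => k ≤ l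
  | emb k, cx => k ≤ a
  | emb k, cy => k ≤ b
  | cx, cx => True
  | cy, cy => True
  | _, _ => False

instance : LE (TC a b) := ⟨TC.le⟩

@[simp] lemma le_tt (x : TC a b) : x ≤ tt := by cases x <;> exact trivial
@[simp] lemma emb_le_emb {k l : D} : (emb k : TC a b) ≤ emb l ↔ k ≤ l := Iff.rfl
@[simp] lemma emb_le_cx {k : D} : (emb k : TC a b) ≤ cx ↔ k ≤ a := Iff.rfl
@[simp] lemma emb_le_cy {k : D} : (emb k : TC a b) ≤ cy ↔ k ≤ b := Iff.rfl
@[simp] lemma cx_le_cx : (cx : TC a b) ≤ cx := trivial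
@[simp] lemma cy_le_cy : (cy : TC a b) ≤ cy := trivial
@[simp] lemma not_cx_le_cy : ¬ (cx : TC a b) ≤ cy := id
@[simp] lemma not_cy_le_cx : ¬ (cy : TC a b) ≤ cx := id
@[simp] lemma not_cx_le_emb {k : D} : ¬ (cx : TC a b) ≤ emb k := id
@[simp] lemma not_cy_le_emb {k : D} : ¬ (cy : TC a b) ≤ emb k := id
@[simp] lemma not_tt_le_emb {k : D} : ¬ (tt : TC a b) ≤ emb k := id
@[simp] lemma not_tt_le_cx : ¬ (tt : TC a b) ≤ cx := id
@[simp] lemma not_tt_le_cy : ¬ (tt : TC a b) ≤ cy := id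

open Classical in
/-- joins -/
protected noncomputable def sup : TC a b → TC a b → TC a b
  | emb k, emb l => emb (k ⊔ l)
  | emb k, cx => if k ≤ a then cx else tt
  | cx, emb k => if k ≤ a then cx else tt
  | emb k, cy => if k ≤ b then cy else tt
  | cy, emb k => if k ≤ b then cy else tt
  | cx, cx => cx
  | cy, cy => cy
  | _, _ => tt

/-- meets -/
protected def inf : TC a b → TC a b → TC a b
  | emb k, emb l => emb (k ⊓ l)
  | emb k, cx => emb (k ⊓ a)
  | cx, emb k => emb (k ⊓ a)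
  | emb k, cy => emb (k ⊓ b)
  | cy, emb k => emb (k ⊓ b)
  | cx, cx => cx
  | cy, cy => cy
  | cx, cy => emb (a ⊓ b)
  | cy, cx => emb (a ⊓ b)
  | tt, x => x
  | x, tt => x

lemma le_refl0 (x : TC a b) : x ≤ x := by cases x <;> simp

lemma le_trans0 (x y z : TC a b) (h1 : x ≤ y) (h2 : y ≤ z) : x ≤ z := by
  cases x <;> cases y <;> cases z <;> simp_all
  all_goals exact h1.trans h2

lemma le_antisymm0 (x y : TC a b) (h1 : x ≤ y) (h2 : y ≤ x) : x = y := by
  cases x <;> cases y <;> simp_all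
  exact _root_.le_antisymm h1 h2

lemma le_sup_left0 (x y : TC a b) : x ≤ TC.sup x y := by
  cases x <;> cases y <;> simp only [TC.sup] <;> try split_ifs
  all_goals simp_all

lemma le_sup_right0 (x y : TC a b) : y ≤ TC.sup x y := by
  cases x <;> cases y <;> simp only [TC.sup] <;> try split_ifs
  all_goals simp_all

lemma sup_le0 (x y z : TC a b) (h1 : x ≤ z) (h2 : y ≤ z) : TC.sup x y ≤ z := by
  cases x <;> cases y <;> cases z <;> simp_all [TC.sup]

lemma inf_le_left0 (x y : TC a b) : TC.inf x y ≤ x := by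
  cases x <;> cases y <;> simp [TC.inf]

lemma inf_le_right0 (x y : TC a b) : TC.inf x y ≤ y := by
  cases x <;> cases y <;> simp [TC.inf]

lemma le_inf0 (x y z : TC a b) (h1 : x ≤ y) (h2 : x ≤ z) : x ≤ TC.inf y z := by
  cases x <;> cases y <;> cases z <;> simp_all [TC.inf]

noncomputable instance : Lattice (TC a b) where
  le := (· ≤ ·)
  le_refl := le_refl0
  le_trans := le_trans0
  le_antisymm := le_antisymm0
  sup := TC.sup
  inf := TC.inf
  le_sup_left := le_sup_left0
  le_sup_right := le_sup_right0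
  sup_le := sup_le0
  inf_le_left := inf_le_left0
  inf_le_right := inf_le_right0
  le_inf := le_inf0

instance : OrderTop (TC a b) where
  top := tt
  le_top := le_tt

lemma top_def : (⊤ : TC a b) = tt := rfl

instance [Finite D] : Finite (TC a b) := by
  have : Function.Surjective (fun x : Option (Option (Option D)) =>
      match x with
      | none => (tt : TC a b)
      | some none => cx
      | some (some none) => cy
      | some (some (some k)) => emb k) := by
    intro x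
    cases x with
    | emb k => exact ⟨some (some (some k)), rfl⟩
    | cx => exact ⟨some none, rfl⟩
    | cy => exact ⟨some (some none), rfl⟩
    | tt => exact ⟨none, rfl⟩
  exact Finite.of_surjective _ this

@[simp] lemma emb_inf_emb (x y : D) : (emb x : TC a b) ⊓ emb y = emb (x ⊓ y) := rfl
@[simp] lemma emb_sup_emb (x y : D) : (emb x : TC a b) ⊔ emb y = emb (x ⊔ y) := rfl
@[simp] lemma emb_inf_cx (x : D) : (emb x : TC a b) ⊓ cx = emb (x ⊓ a) := rfl
@[simp] lemma cx_inf_emb (x : D) : (cx : TC a b) ⊓ emb x = emb (x ⊓ a) := rfl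
@[simp] lemma emb_inf_cy (x : D) : (emb x : TC a b) ⊓ cy = emb (x ⊓ b) := rfl
@[simp] lemma cy_inf_emb (x : D) : (cy : TC a b) ⊓ emb x = emb (x ⊓ b) := rfl
@[simp] lemma cx_inf_cy : (cx : TC a b) ⊓ cy = emb (a ⊓ b) := rfl
@[simp] lemma cy_inf_cx : (cy : TC a b) ⊓ cx = emb (a ⊓ b) := rfl
@[simp] lemma tt_inf (x : TC a b) : (tt : TC a b) ⊓ x = x := by cases x <;> rfl
@[simp] lemma inf_tt (x : TC a b) : x ⊓ (tt : TC a b) = x := by cases x <;> rfl
@[simp] lemma tt_sup (x : TC a b) : (tt : TC a b) ⊔ x = tt := by cases x <;> rfl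
@[simp] lemma sup_tt (x : TC a b) : x ⊔ (tt : TC a b) = tt := by cases x <;> rfl
@[simp] lemma cx_sup_cy : (cx : TC a b) ⊔ cy = tt := rfl
@[simp] lemma cy_sup_cx : (cy : TC a b) ⊔ cx = tt := rfl

lemma emb_sup_cx_of_le {x : D} (hx : x ≤ a) : (emb x : TC a b) ⊔ cx = cx := if_pos hx
lemma emb_sup_cx_of_not_le {x : D} (hx : ¬ x ≤ a) : (emb x : TC a b) ⊔ cx = tt := if_neg hx
lemma cx_sup_emb_of_le {x : D} (hx : x ≤ a) : (cx : TC a b) ⊔ emb x = cx := if_pos hx
lemma cx_sup_emb_of_not_le {x : D} (hx : ¬ x ≤ a) : (cx : TC a b) ⊔ emb x = tt := if_neg hx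
lemma emb_sup_cy_of_le {x : D} (hx : x ≤ b) : (emb x : TC a b) ⊔ cy = cy := if_pos hx
lemma emb_sup_cy_of_not_le {x : D} (hx : ¬ x ≤ b) : (emb x : TC a b) ⊔ cy = tt := if_neg hx
lemma cy_sup_emb_of_le {x : D} (hx : x ≤ b) : (cy : TC a b) ⊔ emb x = cy := if_pos hx
lemma cy_sup_emb_of_not_le {x : D} (hx : ¬ x ≤ b) : (cy : TC a b) ⊔ emb x = tt := if_neg hx

end TC

end Pool.InterD
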