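import Pool.Agent.InterD.Family

/-!
# The conditions (A), (B), (C) for `D ∪ {x, y, 1}`; intervals
-/

namespace Pool.InterD

namespace TC

variable {D : Type} [Lattice D] {a b : D}

/-- The chain `{w, 1}`. -/
def ch (a b w : D) : Set (TC a b) := {emb w, tt}

lemma chain (w : D) : IsChain (· ≤ ·) (ch a b w) := by
  rintro x (rfl | rfl) y (rfl | rfl) h
  · exact absurd rfl h
  · left; simp
  · right; simp
  · exact absurd rfl h

lemma top_mem (w : D) : (⊤ : TC a b) ∈ ch a b w := Or.inr rfl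

lemma not_le_inf {w : D} (hp : ∀ p q : D, ¬ p ≤ w → ¬ q ≤ w → ¬ p ⊓ q ≤ w) (ha : ¬ a ≤ w)
    (hb : ¬ b ≤ w) : ∀ x y : TC a b, ¬ x ≤ emb w → ¬ y ≤ emb w → ¬ x ⊓ y ≤ emb w := by
  intro x y hx hy
  cases x <;> cases y <;> simp_all

lemma condA {w : D} (hp : ∀ p q : D, ¬ p ≤ w → ¬ q ≤ w → ¬ p ⊓ q ≤ w) (ha : ¬ a ≤ w)
    (hb : ¬ b ≤ w) : ∀ x y d : TC a b,
    (d ∈ ch a b w ∧ x ≤ d ∧ ∀ c' ∈ ch a b w, x ≤ c' → d ≤ c') →
    (d ∈ ch a b w ∧ y ≤ d ∧ ∀ c' ∈ ch a b w, y ≤ c' → d ≤ c') →
    (d ∈ ch a b w ∧ x ⊓ y ≤ d ∧ ∀ c' ∈ ch a b w, x ⊓ y ≤ c' → d ≤ c') := by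
  rintro x y d ⟨hd, hx, hx'⟩ ⟨-, hy, hy'⟩
  refine ⟨hd, inf_le_left.trans hx, ?_⟩
  rcases hd with rfl | rfl
  · rintro c' (rfl | rfl) _
    · exact le_rfl
    · simp
  · have hx1 : ¬ x ≤ emb w := fun h => not_tt_le_emb (hx' _ (Or.inl rfl) h)
    have hy1 : ¬ y ≤ emb w := fun h => not_tt_le_emb (hy' _ (Or.inl rfl) h)
    rintro c' (rfl | rfl) h
    · exact absurd h (not_le_inf hp ha hb x y hx1 hy1)
    · exact le_rfl

lemma condB {w : D} (hB : ∀ p q z : D, p ⊔ (w ⊓ z) = z → q ⊔ (w ⊓ z) = z →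
      p ⊓ (w ⊓ z) = q ⊓ (w ⊓ z) → p = q) (ha : ¬ w ≤ a) (hb : ¬ w ≤ b) (hab : w ⊓ a ≠ w ⊓ b) :
    ∀ r x y z : TC a b, x ⊔ r = z → y ⊔ r = z → x ⊓ r = y ⊓ r →
    (∃ d : TC a b, (d ∈ ch a b w ∧ r ≤ d ∧ ∀ c' ∈ ch a b w, r ≤ c' → d ≤ c') ∧ r = d ⊓ z) →
      x = y := by
  rintro r x y z hx hy hxy ⟨d, ⟨hd, -, -⟩, hr⟩
  rcases hd with rfl | rfl
  · cases z with
    | emb k =>
      rw [emb_inf_emb] at hr
      subst hr
      have h1 : ∀ {x : TC a b}, x ⊔ emb (w ⊓ k) = emb k → ∃ p, x = emb p := by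
        intro x h
        cases x with
        | emb p => exact ⟨p, rfl⟩
        | cx => exact absurd (h ▸ le_sup_left : (cx : TC a b) ≤ emb k) not_cx_le_emb
        | cy => exact absurd (h ▸ le_sup_left : (cy : TC a b) ≤ emb k) not_cy_le_emb
        | tt => exact absurd (h ▸ le_sup_left : (tt : TC a b) ≤ emb k) not_tt_le_emb
      obtain ⟨p, rfl⟩ := h1 hx
      obtain ⟨q, rfl⟩ := h1 hy
      rw [emb_sup_emb] at hx hy
      rw [emb_inf_emb, emb_inf_emb] at hxy
      injection hx with hx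
      injection hy with hy
      injection hxy with hxy
      rw [hB p q k hx hy hxy]
    | cx =>
      rw [emb_inf_cx] at hr
      subst hr
      have h1 : ∀ {x : TC a b}, x ⊔ emb (w ⊓ a) = cx → x = cx := by
        intro x h
        cases x with
        | emb p => rw [emb_sup_emb] at h; cases h
        | cx => rfl
        | cy => exact absurd (h ▸ le_sup_left : (cy : TC a b) ≤ cx) not_cy_le_cx
        | tt => rw [tt_sup] at h; exact h
      rw [h1 hx, h1 hy]
    | cy =>
      rw [emb_inf_cy] at hr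
      subst hr
      have h1 : ∀ {x : TC a b}, x ⊔ emb (w ⊓ b) = cy → x = cy := by
        intro x h
        cases x with
        | emb p => rw [emb_sup_emb] at h; cases h
        | cy => rfl
        | cx => exact absurd (h ▸ le_sup_left : (cx : TC a b) ≤ cy) not_cx_le_cy
        | tt => rw [tt_sup] at h; exact h
      rw [h1 hx, h1 hy]
    | tt =>
      rw [inf_tt] at hr
      subst hr
      have e1 : w ⊓ a ≠ w := fun h => ha (inf_eq_left.1 h)
      have e2 : w ⊓ b ≠ w := fun h => hb (inf_eq_left.1 h)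
      cases x <;> cases y <;>
        simp only [emb_sup_emb, cx_inf_emb, cy_inf_emb, tt_inf, emb.injEq, reduceCtorEq] at * <;>
        first | rfl | exact absurd hxy hab | exact absurd hxy.symm hab |
          exact absurd hxy e1 | exact absurd hxy e2 | exact absurd hxy.symm e1 |
          exact absurd hxy.symm e2
  · rw [tt_inf] at hr
    subst hr
    have h1 : x ≤ r := by rw [← hx]; exact le_sup_left
    have h2 : y ≤ r := by rw [← hy]; exact le_sup_left
    rwa [inf_eq_left.2 h1, inf_eq_left.2 h2] at hxy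

lemma condC {w : D} (hC : ∀ k c : D, w ⊓ c ≤ k → k ≤ w → (k ⊔ c) ⊓ w = k)
    (ha : ∀ k : D, w ⊓ a ≤ k → k ≤ w → k = w ⊓ a ∨ k = w)
    (hb : ∀ k : D, w ⊓ b ≤ k → k ≤ w → k = w ⊓ b ∨ k = w) :
    ∀ k d c : TC a b, (d ∈ ch a b w ∧ d ⊓ c ≤ d ∧ ∀ c' ∈ ch a b w, d ⊓ c ≤ c' → d ≤ c') →
      d ⊓ c ≤ k → k ≤ d → (k ⊔ c) ⊓ d = k := by
  rintro k d c ⟨hd, -, hdc⟩ h1 h2
  rcases hd with rfl | rfl
  · cases k with
    | cx => exact absurd h2 not_cx_le_emb
    | cy => exact absurd h2 not_cy_le_emb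
    | tt => exact absurd h2 not_tt_le_emb
    | emb k =>
      rw [emb_le_emb] at h2
      cases c with
      | emb c =>
        rw [emb_inf_emb, emb_le_emb] at h1
        rw [emb_sup_emb, emb_inf_emb, hC k c h1 h2]
      | cx =>
        rw [emb_inf_cx, emb_le_emb] at h1
        by_cases hk : k ≤ a
        · rw [emb_sup_cx_of_le hk, cx_inf_emb]
          congr 1
          exact le_antisymm h1 (le_inf h2 hk)
        · rw [emb_sup_cx_of_not_le hk, tt_inf]
          rcases ha k h1 h2 with h | h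
          · exact absurd (h.le.trans inf_le_right) hk
          · rw [h]
      | cy =>
        rw [emb_inf_cy, emb_le_emb] at h1
        by_cases hk : k ≤ b
        · rw [emb_sup_cy_of_le hk, cy_inf_emb]
          congr 1
          exact le_antisymm h1 (le_inf h2 hk)
        · rw [emb_sup_cy_of_not_le hk, tt_inf]
          rcases hb k h1 h2 with h | h
          · exact absurd (h.le.trans inf_le_right) hk
          · rw [h]
      | tt =>
        rw [inf_tt, emb_le_emb] at h1
        rw [sup_tt, tt_inf, le_antisymm h1 h2]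
  · rw [tt_inf] at h1
    rw [inf_tt]
    exact sup_eq_left.2 h1

/-- the meet condition fails -/
lemma not_condD {w : D} (ha : ¬ w ≤ a) (hb : ¬ w ≤ b) (hab : ¬ a ⊓ b ≤ w) :
    (emb w ∈ ch a b w ∧ (cx ⊓ cy ⊓ emb w : TC a b) ≤ emb w ∧
      ∀ u ∈ ch a b w, cx ⊓ cy ⊓ emb w ≤ u → emb w ≤ u) ∧
    (tt ∈ ch a b w ∧ (cx ⊓ cy : TC a b) ≤ tt ∧ ∀ u ∈ ch a b w, cx ⊓ cy ≤ u → tt ≤ u) ∧
    (tt : TC a b) ≤ tt ∧ (emb w : TC a b) = emb w ⊓ tt ∧ (cx : TC a b) ⊔ emb w = tt ∧
    (cy : TC a b) ⊔ emb w = tt ∧ ((cx ⊓ cy : TC a b) ⊔ emb w) ≠ tt := by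
  refine ⟨⟨Or.inl rfl, inf_le_right, ?_⟩, ⟨Or.inr rfl, le_tt _, ?_⟩, le_rfl, by simp,
    cx_sup_emb_of_not_le ha, cy_sup_emb_of_not_le hb, ?_⟩
  · rintro u (rfl | rfl) _
    · exact le_rfl
    · simp
  · rintro u (rfl | rfl) h
    · exact absurd h hab
    · exact le_rfl
  · rw [cx_inf_cy, emb_sup_emb]
    intro h
    cases h

end TC

/-! ### pentagons -/

/-- the shape of an interval isomorphic to the pentagon -/
lemma pentagon_interval {L : Type} [Lattice L] {u v : L} (φ : Pool.Interstr.N5 ≃o Set.Icc u v) :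
    ∃ p q r : L, p < q ∧ q < v ∧ r < v ∧ u < p ∧ u < r ∧ p ⊓ r = u ∧ q ⊓ r = u ∧ p ⊔ r = v ∧
      q ⊔ r = v ∧ ∀ x, u ≤ x → x ≤ v → x = u ∨ x = p ∨ x = q ∨ x = r ∨ x = v := by
  have hinf : ∀ x y : Pool.Interstr.N5, ((φ (x ⊓ y)).1 : L) = (φ x).1 ⊓ (φ y).1 := by
    intro x y
    apply le_antisymm
    · exact le_inf (φ.monotone inf_le_left) (φ.monotone inf_le_right)
    · have h1 : (φ x).1 ⊓ (φ y).1 ∈ Set.Icc u v :=
        ⟨le_inf (φ x).2.1 (φ y).2.1, inf_le_left.trans (φ x).2.2⟩
      have h2 : φ.symm ⟨_, h1⟩ ≤ x ⊓ y := by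
        apply le_inf
        · rw [← φ.le_iff_le, φ.apply_symm_apply]
          exact inf_le_left
        · rw [← φ.le_iff_le, φ.apply_symm_apply]
          exact inf_le_right
      have h3 := φ.monotone h2
      rw [φ.apply_symm_apply] at h3
      exact h3
  have hsup : ∀ x y : Pool.Interstr.N5, ((φ (x ⊔ y)).1 : L) = (φ x).1 ⊔ (φ y).1 := by
    intro x y
    apply le_antisymm
    · have h1 : (φ x).1 ⊔ (φ y).1 ∈ Set.Icc u v :=
        ⟨(φ x).2.1.trans le_sup_left, sup_le (φ x).2.2 (φ y).2.2⟩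
      have h2 : x ⊔ y ≤ φ.symm ⟨_, h1⟩ := by
        apply sup_le
        · rw [← φ.le_iff_le, φ.apply_symm_apply]
          exact le_sup_left
        · rw [← φ.le_iff_le, φ.apply_symm_apply]
          exact le_sup_right
      have h3 := φ.monotone h2
      rw [φ.apply_symm_apply] at h3
      exact h3
    · exact sup_le (φ.monotone le_sup_left) (φ.monotone le_sup_right)
  have hlt : ∀ {x y : Pool.Interstr.N5}, x < y → (φ x).1 < (φ y).1 := fun h => φ.strictMono h
  have hbot : (φ .bot).1 = u := le_antisymm (by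
    have h1 : u ∈ Set.Icc u v := ⟨le_rfl, (φ .bot).2.1.trans (φ .bot).2.2⟩
    have h2 := φ.monotone (bot_le : (⊥ : Pool.Interstr.N5) ≤ φ.symm ⟨u, h1⟩)
    rw [φ.apply_symm_apply] at h2
    exact h2) (φ .bot).2.1
  have htop : (φ .top).1 = v := le_antisymm (φ .top).2.2 (by
    have h1 : v ∈ Set.Icc u v := ⟨(φ .bot).2.1.trans (φ .bot).2.2, le_rfl⟩
    have h2 := φ.monotone (le_top : φ.symm ⟨v, h1⟩ ≤ (⊤ : Pool.Interstr.N5))
    rw [φ.apply_symm_apply] at h2
    exact h2)
  have hAB := hlt (lt_of_le_of_ne (show Pool.Interstr.N5.a ≤ Pool.Interstr.N5.b by decide)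
    (by decide))
  have hBT := hlt (lt_of_le_of_ne (show Pool.Interstr.N5.b ≤ Pool.Interstr.N5.top by decide)
    (by decide))
  have hCT := hlt (lt_of_le_of_ne (show Pool.Interstr.N5.c ≤ Pool.Interstr.N5.top by decide)
    (by decide))
  have hbA := hlt (lt_of_le_of_ne (show Pool.Interstr.N5.bot ≤ Pool.Interstr.N5.a by decide)
    (by decide))
  have hbC := hlt (lt_of_le_of_ne (show Pool.Interstr.N5.bot ≤ Pool.Interstr.N5.c by decide)
    (by decide))
  have i1 := hinf .a .c
  have i2 := hinf .b .c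
  have s1 := hsup .a .c
  have s2 := hsup .b .c
  rw [show Pool.Interstr.N5.a ⊓ Pool.Interstr.N5.c = .bot from rfl, hbot] at i1
  rw [show Pool.Interstr.N5.b ⊓ Pool.Interstr.N5.c = .bot from rfl, hbot] at i2
  rw [show Pool.Interstr.N5.a ⊔ Pool.Interstr.N5.c = .top from rfl, htop] at s1
  rw [show Pool.Interstr.N5.b ⊔ Pool.Interstr.N5.c = .top from rfl, htop] at s2
  rw [htop] at hBT hCT
  rw [hbot] at hbA hbC
  refine ⟨(φ .a).1, (φ .b).1, (φ .c).1, hAB, hBT, hCT, hbA, hbC, i1.symm, i2.symm, s1.symm,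
    s2.symm, fun x h1 h2 => ?_⟩
  obtain ⟨y, hy⟩ : ∃ y, φ y = ⟨x, h1, h2⟩ := ⟨φ.symm ⟨x, h1, h2⟩, φ.apply_symm_apply _⟩
  have hy' : (φ y).1 = x := by rw [hy]
  cases y with
  | bot => left; rw [← hy', hbot]
  | a => right; left; exact hy'.symm
  | b => right; right; left; exact hy'.symm
  | c => right; right; right; left; exact hy'.symm
  | top => right; right; right; right; rw [← hy', htop]

namespace TC

/-- If `D` is distributive and `a`, `b` are distinct coatoms of `D`, then no interval of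
`D ∪ {x, y, 1}` is isomorphic to the pentagon. -/
lemma no_pentagon_interval {D : Type} [DistribLattice D] [OrderTop D] {a b : D}
    (ha : IsCoatom a) (hb : IsCoatom b) (u v : TC a b) :
    IsEmpty (Pool.Interstr.N5 ≃o Set.Icc u v) := by
  refine ⟨fun φ => ?_⟩
  obtain ⟨p, q, r, hpq, hqv, hrv, hup, hur, i1, i2, s1, s2, hall⟩ := pentagon_interval φ
  have hemb : ∀ {x : TC a b} {k : D}, x ≤ emb k → ∃ l, x = emb l := by
    intro x k h
    cases x with
    | emb l => exact ⟨l, rfl⟩
    | cx => exact absurd h not_cx_le_emb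
    | cy => exact absurd h not_cy_le_emb
    | tt => exact absurd h not_tt_le_emb
  have hntt : ∀ {x : TC a b}, x < v → x ≠ tt := by
    rintro x h rfl
    exact absurd h (not_lt_of_ge (le_tt v))
  have htop : (emb ⊤ : TC a b) ≤ tt := le_tt _
  -- the new top is the upper end
  have hat : a ≠ ⊤ := ha.1
  have hbt : b ≠ ⊤ := hb.1
  cases q with
  | tt => exact hntt hqv rfl
  | cx =>
    have hv : v = tt := by
      cases v with
      | emb k => exact absurd hqv.le not_cx_le_emb
      | cx => exact absurd hqv (lt_irrefl _)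
      | cy => exact absurd hqv.le not_cx_le_cy
      | tt => rfl
    have hp : ∃ k, p = emb k ∧ k ≤ a := by
      cases p with
      | emb k => exact ⟨k, rfl, hpq.le⟩
      | cx => exact absurd hpq (lt_irrefl _)
      | cy => exact absurd hpq.le not_cy_le_cx
      | tt => exact absurd hpq.le not_tt_le_cx
    obtain ⟨k, rfl, hk⟩ := hp
    cases r with
    | tt => exact hntt hrv rfl
    | emb j =>
      rw [hv, emb_sup_emb] at s1
      cases s1
    | cx =>
      rw [inf_eq_left.2 hpq.le] at i1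
      exact hup.ne i1.symm
    | cy =>
      rw [cx_inf_cy] at i2
      have h1 := hall (emb ⊤) (by rw [← i2]; simp) (by rw [hv]; simp)
      rw [← i2, hv] at h1
      simp only [emb.injEq, reduceCtorEq, or_false] at h1
      rcases h1 with h1 | h1
      · exact hat (top_le_iff.1 (h1.le.trans inf_le_left))
      · exact hat (top_le_iff.1 (h1.le.trans hk))
  | cy =>
    have hv : v = tt := by
      cases v with
      | emb k => exact absurd hqv.le not_cy_le_emb
      | cy => exact absurd hqv (lt_irrefl _)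
      | cx => exact absurd hqv.le not_cy_le_cx
      | tt => rfl
    have hp : ∃ k, p = emb k ∧ k ≤ b := by
      cases p with
      | emb k => exact ⟨k, rfl, hpq.le⟩
      | cy => exact absurd hpq (lt_irrefl _)
      | cx => exact absurd hpq.le not_cx_le_cy
      | tt => exact absurd hpq.le not_tt_le_cy
    obtain ⟨k, rfl, hk⟩ := hp
    cases r with
    | tt => exact hntt hrv rfl
    | emb j =>
      rw [hv, emb_sup_emb] at s1
      cases s1
    | cy =>
      rw [inf_eq_left.2 hpq.le] at i1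
      exact hup.ne i1.symm
    | cx =>
      rw [cy_inf_cx] at i2
      have h1 := hall (emb ⊤) (by rw [← i2]; simp) (by rw [hv]; simp)
      rw [← i2, hv] at h1
      simp only [emb.injEq, reduceCtorEq, or_false] at h1
      rcases h1 with h1 | h1
      · exact hat (top_le_iff.1 (h1.le.trans inf_le_left))
      · exact hbt (top_le_iff.1 (h1.le.trans hk))
  | emb k =>
    obtain ⟨k', rfl⟩ := hemb hpq.le
    have hkk : k' < k := by
      refine lt_of_le_of_ne hpq.le (fun h => ?_)
      rw [h] at hpq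
      exact lt_irrefl _ hpq
    cases r with
    | tt => exact hntt hrv rfl
    | emb j =>
      rw [emb_inf_emb] at i1 i2
      rw [emb_sup_emb] at s1 s2
      have e1 := i1.trans i2.symm
      have e2 := s1.trans s2.symm
      injection e1 with e1
      injection e2 with e2
      exact hkk.ne (eq_of_inf_eq_sup_eq e1 e2)
    | cx =>
      rw [emb_inf_cx] at i1 i2
      have hk'a : ¬ k' ≤ a := fun h => by
        rw [emb_sup_cx_of_le h] at s1
        exact hrv.ne s1
      rw [emb_sup_cx_of_not_le hk'a] at s1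
      have h1 := hall (emb ⊤) (hup.le.trans (hpq.le.trans (by simp))) (by rw [← s1]; simp)
      rw [← i2, ← s1] at h1
      simp only [emb.injEq, reduceCtorEq, or_false] at h1
      have hkt : k = ⊤ := by
        rcases h1 with h1 | h1 | h1
        · exact top_le_iff.1 (h1.le.trans inf_le_left)
        · exact absurd (le_top.trans h1.le) (not_le_of_gt hkk)
        · exact h1.symm
      have e1 := i1.trans i2.symm
      injection e1 with e1
      rw [hkt, top_inf_eq] at e1
      have h2 : a ≤ k' := by rw [← e1]; exact inf_le_left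
      rcases ha.le_iff.1 h2 with h3 | h3
      · rw [h3, hkt] at hkk
        exact lt_irrefl _ hkk
      · exact hk'a h3.le
    | cy =>
      rw [emb_inf_cy] at i1 i2
      have hk'a : ¬ k' ≤ b := fun h => by
        rw [emb_sup_cy_of_le h] at s1
        exact hrv.ne s1
      rw [emb_sup_cy_of_not_le hk'a] at s1
      have h1 := hall (emb ⊤) (hup.le.trans (hpq.le.trans (by simp))) (by rw [← s1]; simp)
      rw [← i2, ← s1] at h1
      simp only [emb.injEq, reduceCtorEq, or_false] at h1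
      have hkt : k = ⊤ := by
        rcases h1 with h1 | h1 | h1
        · exact top_le_iff.1 (h1.le.trans inf_le_left)
        · exact absurd (le_top.trans h1.le) (not_le_of_gt hkk)
        · exact h1.symm
      have e1 := i1.trans i2.symm
      injection e1 with e1
      rw [hkt, top_inf_eq] at e1
      have h2 : b ≤ k' := by rw [← e1]; exact inf_le_left
      rcases hb.le_iff.1 h2 with h3 | h3
      · rw [h3, hkt] at hkk
        exact lt_irrefl _ hkk
      · exact hk'a h3.le

end TC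

end Pool.InterD
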