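import Pool.Agent.InterD.KeyA

/-!
# Necessary conditions for ranked interstructure lattices
-/

set_option linter.unusedTactic false
set_option linter.unreachableTactic false

open FirstOrder FirstOrder.Language FirstOrder.Ring

namespace Pool.InterD

open Pool.Interstr Pool.InterPA

section

variable {N : Type} [CommSemiring N] [Neg N] [CompatibleRing N]

lemma one_mem' (K : Language.ring.ElementarySubstructure N) : (1 : N) ∈ K :=
  unique_mem K (fun x => x = 1) (by repeat' (beta_reduce; with_reducible first | apply DP.not | apply DP.all | apply DP.ex | apply DP.imp | apply DP.and | apply DP.or | apply DP.iff | apply DP.In3 | apply DP.In2 | apply DP.Val | apply DP.In | apply DP.le | apply DP.lt | apply DP.eq | exact DT.proj _ | exact DT.zero | exact DT.one | apply DT.pr | apply DT.add | apply DT.mul | exact DT.const (Set.mem_univ _) | exact DT.const (SetLike.mem_coe.2 (by assumption)) | exact DT.const (by assumption))) rfl (fun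 _ h => h)

lemma pr_mem_iff (hN : IsPA N) (K : Language.ring.ElementarySubstructure N) {a b : N} :
    pr a b ∈ K ↔ a ∈ K ∧ b ∈ K := by
  constructor
  · intro h
    obtain ⟨t, ht⟩ : ∃ t, t = pr a b := ⟨_, rfl⟩
    rw [← ht] at h
    constructor
    · refine unique_mem K (fun x => ∃ y, t = pr x y) (by repeat' (beta_reduce; with_reducible first | apply DP.not | apply DP.all | apply DP.ex | apply DP.imp | apply DP.and | apply DP.or | apply DP.iff | apply DP.In3 | apply DP.In2 | apply DP.Val | apply DP.In | apply DP.le | apply DP.lt | apply DP.eq | exact DT.proj _ | exact DT.zero | exact DT.one | apply DT.pr | apply DT.add | apply DT.mul | exact DT.const (Set.mem_univ _) | exact DT.const (SetLike.mem_coe.2 (by assumption)) | exact DT.const (by assumption))) ⟨b, ht⟩ ?_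
      rintro x ⟨y, hy⟩
      exact (pr_inj hN (ht.symm.trans hy)).1.symm
    · refine unique_mem K (fun y => ∃ x, t = pr x y) (by repeat' (beta_reduce; with_reducible first | apply DP.not | apply DP.all | apply DP.ex | apply DP.imp | apply DP.and | apply DP.or | apply DP.iff | apply DP.In3 | apply DP.In2 | apply DP.Val | apply DP.In | apply DP.le | apply DP.lt | apply DP.eq | exact DT.proj _ | exact DT.zero | exact DT.one | apply DT.pr | apply DT.add | apply DT.mul | exact DT.const (Set.mem_univ _) | exact DT.const (SetLike.mem_coe.2 (by assumption)) | exact DT.const (by assumption))) ⟨a, ht⟩ ?_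
      rintro x ⟨y, hy⟩
      exact (pr_inj hN (ht.symm.trans hy)).2.symm
  · rintro ⟨ha, hb⟩
    exact unique_mem K (fun x => x = pr a b) (by repeat' (beta_reduce; with_reducible first | apply DP.not | apply DP.all | apply DP.ex | apply DP.imp | apply DP.and | apply DP.or | apply DP.iff | apply DP.In3 | apply DP.In2 | apply DP.Val | apply DP.In | apply DP.le | apply DP.lt | apply DP.eq | exact DT.proj _ | exact DT.zero | exact DT.one | apply DT.pr | apply DT.add | apply DT.mul | exact DT.const (Set.mem_univ _) | exact DT.const (SetLike.mem_coe.2 (by assumption)) | exact DT.const (by assumption))) rfl (fun _ h => h)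

/-- finitely many elements can be coded by one element -/
lemma exists_gen (hN : IsPA N) (S : Finset N) :
    ∃ g : N, ∀ K : Language.ring.ElementarySubstructure N, g ∈ K ↔ ∀ a ∈ S, a ∈ K := by
  classical
  induction S using Finset.induction_on with
  | empty => exact ⟨0, fun K => ⟨fun _ a ha => absurd ha (Finset.notMem_empty a),
      fun _ => zero_mem' K⟩⟩
  | insert a S ha ih =>
    obtain ⟨g, hg⟩ := ih
    refine ⟨pr a g, fun K => ?_⟩
    rw [pr_mem_iff hN, hg]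
    simp

variable {R : Set N} {L : Type} [Lattice L] {C : Set L}
  (e : L ≃o {K : Language.ring.ElementarySubstructure N // R ⊆ (K : Set N)})

lemma le_e {l l' : L} (hl : l ≤ l') : (e l).1 ≤ (e l').1 := e.monotone hl

lemma meet_e (hN : IsPA N) (l l' : L) (x : N) (hx : x ∈ (e l).1) (hx' : x ∈ (e l').1) :
    x ∈ (e (l ⊓ l')).1 := by
  let K := (hN.inter_meets (e l).1 (e l').1).toElementarySubstructure
  have hK : ∀ z, z ∈ K ↔ z ∈ (((e l).1 : Set N) ∩ ((e l').1 : Set N)) :=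
    mem_toElem (hN.inter_meets (e l).1 (e l').1)
  have hfK : R ⊆ (K : Set N) := by
    intro z hz
    rw [SetLike.mem_coe, hK]
    exact ⟨(e l).2 hz, (e l').2 hz⟩
  have h1 : e.symm ⟨K, hfK⟩ ≤ l ⊓ l' := by
    apply le_inf
    · rw [← e.le_iff_le, e.apply_symm_apply]
      intro z hz
      change z ∈ K at hz
      rw [hK] at hz
      exact hz.1
    · rw [← e.le_iff_le, e.apply_symm_apply]
      intro z hz
      change z ∈ K at hz
      rw [hK] at hz
      exact hz.2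
  have h2 := e.monotone h1
  rw [e.apply_symm_apply] at h2
  exact h2 ((hK x).2 ⟨hx, hx'⟩)

/-- the least element of `C` above `l` is the cofinal closure -/
lemma bar_e (hN : IsPA N) (h : ∀ l : L, l ∈ C ↔ ∀ x ∈ (e l).1, ∀ y : N, y ∉ (e l).1 → Lt x y)
    (l : L) : ∃ b ∈ C, l ≤ b ∧ (∀ u ∈ C, l ≤ u → b ≤ u) ∧
      ∀ y ∈ (e b).1, ∃ m ∈ (e l).1, Le y m := by
  let K := (hN.clos_meets (e l).1).toElementarySubstructure
  have hK : ∀ z, z ∈ K ↔ z ∈ clos (e l).1 := mem_toElem (hN.clos_meets (e l).1)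
  have hwK : ∀ z ∈ (e l).1, z ∈ K := fun z hz => (hK z).2 ⟨z, hz, le_refl' z⟩
  have hfK : R ⊆ (K : Set N) := fun z hz => hwK z ((e l).2 hz)
  refine ⟨e.symm ⟨K, hfK⟩, ?_, ?_, ?_, ?_⟩
  · rw [h, e.apply_symm_apply]
    intro x hx y hy
    change x ∈ K at hx
    change y ∉ K at hy
    rw [hK] at hx hy
    rcases hN.lt_or_le x y with h1 | h1
    · exact h1
    · exfalso
      obtain ⟨m, hmw, hm⟩ := hx
      exact hy ⟨m, hmw, le_trans' h1 hm⟩
  · rw [← e.le_iff_le, e.apply_symm_apply]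
    exact hwK
  · intro u hu hlu
    rw [← e.le_iff_le, e.apply_symm_apply]
    intro z hz
    change z ∈ K at hz
    rw [hK] at hz
    obtain ⟨m, hm, hzm⟩ := hz
    by_contra hzu
    exact hN.lt_asymm ((h u).1 hu m (le_e e hlu hm) z hzu) hzm
  · rw [e.apply_symm_apply]
    intro y hy
    change y ∈ K at hy
    rw [hK] at hy
    exact hy

lemma cof_e (hN : IsPA N) (h : ∀ l : L, l ∈ C ↔ ∀ x ∈ (e l).1, ∀ y : N, y ∉ (e l).1 → Lt x y)
    {l c : L} (hlc : ∀ u ∈ C, l ≤ u → c ≤ u) : ∀ y ∈ (e c).1, ∃ m ∈ (e l).1, Le y m := by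
  obtain ⟨b, hb, hlb, -, hb2⟩ := bar_e e hN h l
  intro y hy
  exact hb2 y (le_e e (hlc b hb hlb) hy)

lemma init_e (hN : IsPA N) (h : ∀ l : L, l ∈ C ↔ ∀ x ∈ (e l).1, ∀ y : N, y ∉ (e l).1 → Lt x y)
    {c : L} (hc : c ∈ C) {t n : N} (hn : n ∈ (e c).1) (htn : Le t n) : t ∈ (e c).1 := by
  by_contra ht
  exact hN.lt_asymm ((h c).1 hc n hn t ht) htn

lemma chain_e (hN : IsPA N) (h : ∀ l : L, l ∈ C ↔ ∀ x ∈ (e l).1, ∀ y : N, y ∉ (e l).1 → Lt x y)
    {c c' : L} (hc : c ∈ C) (hc' : c' ∈ C) : c ≤ c' ∨ c' ≤ c := by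
  by_cases hcc : c ≤ c'
  · exact Or.inl hcc
  · right
    rw [← e.le_iff_le]
    have h1 : ¬ (e c).1 ≤ (e c').1 := fun h1 => hcc (e.le_iff_le.1 h1)
    rw [SetLike.not_le_iff_exists] at h1
    obtain ⟨x, hx, hx'⟩ := h1
    intro y hy
    have h2 : Lt y x := (h c').1 hc' y hy x hx'
    exact init_e e hN h hc hx (le_of_lt' h2)

lemma gen_e (hN : IsPA N) [Finite L] (l : L) :
    ∃ g ∈ (e l).1, ∀ l' : L, g ∈ (e l').1 → l ≤ l' := by
  classical
  have := Fintype.ofFinite L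
  have hex : ∀ l' : L, ∃ a ∈ (e l).1, a ∈ (e l').1 → l ≤ l' := by
    intro l'
    by_cases hl : l ≤ l'
    · exact ⟨0, zero_mem' _, fun _ => hl⟩
    · have h1 : ¬ (e l).1 ≤ (e l').1 := fun h1 => hl (e.le_iff_le.1 h1)
      rw [SetLike.not_le_iff_exists] at h1
      obtain ⟨a, ha, ha'⟩ := h1
      exact ⟨a, ha, fun h2 => absurd h2 ha'⟩
  choose a ha ha' using hex
  obtain ⟨g, hg⟩ := exists_gen hN (Finset.univ.image a)
  refine ⟨g, (hg _).2 ?_, fun l' hl' => ha' l' ((hg _).1 hl' (a l') ?_)⟩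
  · intro t ht
    rw [Finset.mem_image] at ht
    obtain ⟨l', -, rfl⟩ := ht
    exact ha l'
  · exact Finset.mem_image_of_mem a (Finset.mem_univ l')

lemma dclo_e (hN : IsPA N) (P : Set N) (l : L) (hP : R ⊆ P)
    (hl : ∀ k : L, P ⊆ ((e k).1 : Set N) → l ≤ k) : ∀ t ∈ (e l).1, t ∈ dclo P := by
  intro t ht
  let K := (hN.dclo_meets P).toElementarySubstructure
  have hK : ∀ z, z ∈ K ↔ z ∈ dclo P := mem_toElem (hN.dclo_meets P)
  have hfK : R ⊆ (K : Set N) := fun z hz => (hK z).2 (subset_dclo P (hP hz))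
  have h1 := hl (e.symm ⟨K, hfK⟩) (by
    rw [e.apply_symm_apply]
    intro z hz
    exact (hK z).2 (subset_dclo P hz))
  have h2 := e.monotone h1
  rw [e.apply_symm_apply] at h2
  exact (hK t).1 (h2 ht)

/-- **Necessity of the meet condition.** -/
theorem condD_e (hN : IsPA N) [Finite L]
    (h : ∀ l : L, l ∈ C ↔ ∀ x ∈ (e l).1, ∀ y : N, y ∉ (e l).1 → Lt x y)
    {w x y z c d : L} (hc : c ∈ C) (hc' : ∀ u ∈ C, x ⊓ y ⊓ w ≤ u → c ≤ u)
    (hd' : ∀ u ∈ C, x ⊓ y ≤ u → d ≤ u) (hzd : z ≤ d) (hw : w = c ⊓ z)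
    (hx : x ⊔ w = z) (hy : y ⊔ w = z) : (x ⊓ y) ⊔ w = z := by
  obtain ⟨gx, hgx, hgx'⟩ := gen_e e hN x
  obtain ⟨gy, hgy, hgy'⟩ := gen_e e hN y
  obtain ⟨gw, hgw, hgw'⟩ := gen_e e hN w
  have hwc : w ≤ c := hw.le.trans inf_le_left
  have hwz : w ≤ z := hw.le.trans inf_le_right
  have hxz : x ≤ z := le_sup_left.trans hx.le
  have hyz : y ≤ z := le_sup_left.trans hy.le
  have hrange : R ⊆ ((e (x ⊓ y ⊓ w)).1 : Set N) := (e _).2
  -- bounds
  obtain ⟨s, hs, hgws⟩ := cof_e e hN h hc' gw (le_e e hwc hgw)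
  obtain ⟨t1, ht1, hgt1⟩ := cof_e e hN h hd' gx (le_e e (hxz.trans hzd) hgx)
  obtain ⟨t2, ht2, hgt2⟩ := cof_e e hN h hd' gy (le_e e (hyz.trans hzd) hgy)
  have hin : ∀ (v : L) (t n : N), v ≤ z → t ∈ (e v).1 → n ∈ (e (x ⊓ y ⊓ w)).1 → Le t n →
      t ∈ (e w).1 := by
    intro v t n hv ht hn htn
    have htc := init_e e hN h hc (le_e e (inf_le_right.trans hwc) hn) htn
    rw [hw]
    exact meet_e e hN c z t htc (le_e e hv ht)
  have hmem : ∀ {v : L} {a b : N}, v ⊔ w = z →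
      (∀ l' : L, a ∈ (e l').1 → v ≤ l') → b ∈ (e z).1 →
      b ∈ dclo (((e (x ⊓ y ⊓ w)).1 : Set N) ∪ {gw, a}) := by
    intro v a b hv ha hb
    refine dclo_e e hN _ z (hrange.trans Set.subset_union_left) (fun k hk => ?_) b hb
    have h1 : w ≤ k := hgw' k (hk (Or.inr (Or.inl rfl)))
    have h2 : v ≤ k := ha k (hk (Or.inr (Or.inr rfl)))
    rw [← hv]
    exact sup_le h2 h1
  have hfin := key hN (e (x ⊓ y ⊓ w)).1 (e (x ⊓ y)).1 (e x).1 (e y).1 (e w).1
    (le_e e inf_le_left) (le_e e inf_le_left) (le_e e inf_le_right)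
    (fun t h1 h2 => meet_e e hN x y t h1 h2)
    (fun t n ht hn htn => hin x t n hxz ht hn htn) (fun t n ht hn htn => hin y t n hyz ht hn htn)
    (b := gx) (b' := gy) (c := gw) (s := s + 1) (T := t1 + t2 + 1) hgx hgy
    (add_mem' _ hs (one_mem' _)) (hN.lt_succ_iff.2 hgws)
    (add_mem' _ (add_mem' _ ht1 ht2) (one_mem' _))
    (hN.lt_succ_iff.2 (le_trans' hgt1 (le_add_right' _ _)))
    (hN.lt_succ_iff.2 (le_trans' hgt2 (le_add_left' _ _)))
    (by
      intro t ht
      refine dclo_e e hN _ w (hrange.trans Set.subset_union_left) (fun k hk => ?_) t ht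
      exact hgw' k (hk (Or.inr (Or.inl rfl))))
    (hmem hx hgx' (le_e e hyz hgy)) (hmem hy hgy' (le_e e hxz hgx))
    (e ((x ⊓ y) ⊔ w)).1 (le_e e le_sup_left) (le_e e le_sup_right)
  apply le_antisymm
  · exact sup_le (inf_le_left.trans hxz) hwz
  · have h1 := hgx' _ hfin
    rw [← hx]
    exact sup_le h1 le_sup_right

/-- **Necessity of condition (A)**, for finite lattices. -/
theorem condA_e (hN : IsPA N) [Finite L]
    (h : ∀ l : L, l ∈ C ↔ ∀ x ∈ (e l).1, ∀ y : N, y ∉ (e l).1 → Lt x y)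
    {x y c : L} (hxc : x ≤ c) (hyc : y ≤ c)
    (hx : ∀ u ∈ C, x ≤ u → c ≤ u) (hy : ∀ u ∈ C, y ≤ u → c ≤ u) :
    ∀ u ∈ C, x ⊓ y ≤ u → c ≤ u := by
  intro u hu hxyu
  by_cases hxu : x ≤ u
  · exact hx u hu hxu
  exfalso
  have h1 : ¬ (e x).1 ≤ (e u).1 := fun h1 => hxu (e.le_iff_le.1 h1)
  rw [SetLike.not_le_iff_exists] at h1
  obtain ⟨b0, hb0, hb0'⟩ := h1
  obtain ⟨gx, hgx, hgx'⟩ := gen_e e hN x
  have hb : pr b0 gx ∈ (e x).1 := (pr_mem_iff hN _).2 ⟨hb0, hgx⟩
  obtain ⟨b', hb', hbb'⟩ := cof_e e hN h hy (pr b0 gx) (le_e e hxc hb)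
  obtain ⟨g, hg, hb'g⟩ := cof_e e hN h hx b' (le_e e hyc hb')
  obtain ⟨t, ht, hbt⟩ := keyA hN (e (x ⊓ y)).1 (e x).1 (e y).1 (le_e e inf_le_left)
    (le_e e inf_le_right) (fun t h1 h2 => meet_e e hN x y t h1 h2) hb hb' hbb' hb'g (by
      refine dclo_e e hN _ x ((e (x ⊓ y)).2.trans Set.subset_union_left) (fun k hk => ?_) g hg
      have h2 : pr b0 gx ∈ (e k).1 := hk (Or.inr (Or.inl rfl))
      exact hgx' k ((pr_mem_iff hN _).1 h2).2)
  apply hb0'
  refine init_e e hN h hu (le_e e hxyu ht) (le_trans' ?_ hbt)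
  exact ⟨(b0 + gx) * (b0 + gx), by rw [pr]; ring⟩

/-- **Necessity of condition (B)** in the comparable case, for finite lattices. -/
theorem condB_e (hN : IsPA N) [Finite L]
    (h : ∀ l : L, l ∈ C ↔ ∀ x ∈ (e l).1, ∀ y : N, y ∉ (e l).1 → Lt x y)
    {w x x' z c : L} (hc : c ∈ C) (hw : w = c ⊓ z) (hx : x ≤ z) (hxx' : x' ≤ x)
    (hx' : x' ⊔ w = z) (hxw : x ⊓ w ≤ x') : x = x' := by
  apply le_antisymm _ hxx'
  obtain ⟨gx, hgx, hgx'⟩ := gen_e e hN x
  obtain ⟨gy, hgy, hgy'⟩ := gen_e e hN x'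
  obtain ⟨gw, hgw, hgw'⟩ := gen_e e hN w
  have hwc : w ≤ c := hw.le.trans inf_le_left
  apply hgx'
  refine keyB hN (e x').1 (e x).1 (e w).1 (le_e e hxx') ?_ hgx hgy hgw ?_
  · intro t r ht hr htr
    have h1 := init_e e hN h hc (le_e e hwc hr) htr
    have h2 := meet_e e hN c z t h1 (le_e e hx ht)
    rw [← hw] at h2
    exact le_e e hxw (meet_e e hN x w t ht h2)
  · refine dclo_e e hN _ z ((e x').2.trans Set.subset_union_left) (fun k hk => ?_) gx
      (le_e e hx hgx)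
    rw [← hx']
    exact sup_le (hgy' k (hk (Or.inr (Or.inl rfl)))) (hgw' k (hk (Or.inr (Or.inr rfl))))

end

end Pool.InterD
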