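import Pool.Agent.InterD.Comb

/-!
# The meet condition: the main argument about elementary substructures
-/

set_option linter.unusedTactic false
set_option linter.unreachableTactic false

open FirstOrder FirstOrder.Language FirstOrder.Ring

namespace Pool.InterD

open Pool.Interstr Pool.InterPA

section

variable {N : Type} [CommSemiring N] [Neg N] [CompatibleRing N]

/-- a nonempty set definable over `K` has an element in `K` -/
lemma exists_mem (K : Language.ring.ElementarySubstructure N) (P : N → Prop)
    (hP : DP (K : Set N) (fun v : Fin 1 → N => P (v 0))) (h : ∃ x, P x) : ∃ x ∈ K, P x := by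
  obtain ⟨φ, hφ⟩ := hP
  obtain ⟨x, hx⟩ := h
  obtain ⟨y, hy, hy'⟩ := exists_in K φ (fun z : (K : Set N) => (z : N)) (fun z => z.2)
    ⟨x, (hφ (fun _ => x)).1 hx⟩
  exact ⟨y, hy, (hφ (fun _ => y)).2 hy'⟩

/-- an element definable over `K` is in `K` -/
lemma unique_mem (K : Language.ring.ElementarySubstructure N) (P : N → Prop)
    (hP : DP (K : Set N) (fun v : Fin 1 → N => P (v 0))) {a : N} (h : P a)
    (h' : ∀ x, P x → x = a) : a ∈ K := by
  obtain ⟨x, hx, hx'⟩ := exists_mem K P hP ⟨a, h⟩
  rw [← h' x hx']
  exact hx

/-- elements definable over `Z` and two more elements -/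
lemma exists_rel {Z : Set N} {a1 a2 y : N} (h : y ∈ dclo (Z ∪ {a1, a2})) :
    ∃ F : N → N → N → Prop, DP Z (fun v : Fin 3 → N => F (v 0) (v 1) (v 2)) ∧
      ∀ x, F a1 a2 x ↔ x = y := by
  classical
  rw [dclo, Set.mem_ofPred_eq, definable_singleton_iff] at h
  obtain ⟨A0, φ, hA0, hφ⟩ := h
  let g : A0 ⊕ Fin 1 → Z ⊕ Fin 3 := Sum.elim
    (fun i => if h : (i : N) ∈ Z then Sum.inl ⟨i, h⟩ else if (i : N) = a1 then Sum.inr 0
      else Sum.inr 1) (fun _ => Sum.inr 2)
  refine ⟨fun a b x => (φ.relabel g).Realize (Sum.elim (fun z : Z => (z : N)) ![a, b, x]),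
    ⟨φ.relabel g, fun v => ?_⟩, fun x => ?_⟩
  · have : ![v 0, v 1, v 2] = v := by
      funext i
      fin_cases i <;> rfl
    beta_reduce
    rw [this]
  · rw [← hφ x]
    beta_reduce
    rw [Formula.realize_relabel]
    refine iff_of_eq (congrArg _ ?_)
    funext i
    rcases i with i | i
    · by_cases h1 : (i : N) ∈ Z
      · simp [g, h1]
      · by_cases h2 : (i : N) = a1
        · simp only [g, Function.comp_apply, Sum.elim_inl, dif_neg h1, if_pos h2, Sum.elim_inr,
            Matrix.cons_val_zero]
          exact h2.symm
        · have h3 := hA0 i.2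
          rcases h3 with h3 | h3 | h3
          · exact absurd h3 h1
          · exact absurd h3 h2
          · simp only [g, Function.comp_apply, Sum.elim_inl, dif_neg h1, if_neg h2, Sum.elim_inr,
              Matrix.cons_val_one]
            exact h3.symm
    · simp [g]

/-- **Main argument.** -/
theorem key (hN : IsPA N) (M V X Y W : Language.ring.ElementarySubstructure N)
    (hMV : M ≤ V) (hVX : V ≤ X) (hVY : V ≤ Y) (hXY : ∀ t, t ∈ X → t ∈ Y → t ∈ V)
    (hWX : ∀ t n, t ∈ X → n ∈ M → Le t n → t ∈ W) (hWY : ∀ t n, t ∈ Y → n ∈ M → Le t n → t ∈ W)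
    {b b' c s T : N} (hb : b ∈ X) (hb' : b' ∈ Y) (hs : s ∈ M) (hcs : Lt c s)
    (hT : T ∈ V) (hbT : Lt b T) (hbT' : Lt b' T)
    (hWc : ∀ t ∈ W, t ∈ dclo ((M : Set N) ∪ {c, c}))
    (h1 : b' ∈ dclo ((M : Set N) ∪ {c, b})) (h2 : b ∈ dclo ((M : Set N) ∪ {c, b'}))
    (K : Language.ring.ElementarySubstructure N) (hVK : V ≤ K) (hWK : W ≤ K) : b ∈ K := by
  obtain ⟨F1, hF1, hF1'⟩ := exists_rel h1
  obtain ⟨F2, hF2, hF2'⟩ := exists_rel h2
  -- the graph
  obtain ⟨G, hG, hGdef⟩ : ∃ G : N → N → N → Prop,
      DP (M : Set N) (fun v : Fin 3 → N => G (v 0) (v 1) (v 2)) ∧ ∀ i u v, G i u v ↔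
        (F1 i u v ∧ (∀ v', F1 i u v' → v' = v)) ∧ (F2 i v u ∧ (∀ u', F2 i v u' → u' = u)) := by
    refine ⟨fun i u v => (F1 i u v ∧ (∀ v', F1 i u v' → v' = v)) ∧
      (F2 i v u ∧ (∀ u', F2 i v u' → u' = u)), ?_, fun _ _ _ => Iff.rfl⟩
    repeat' (beta_reduce; with_reducible first | apply DP.not | apply DP.all | apply DP.ex | apply DP.imp | apply DP.and | apply DP.or | apply DP.iff | apply DP.In3 | apply DP.In2 | apply DP.Val | apply DP.In | apply DP.le | apply DP.lt | apply DP.eq | exact DT.proj _ | exact DT.zero | exact DT.one | apply DT.pr | apply DT.add | apply DT.mul | exact DT.const (Set.mem_univ _) | exact DT.const (SetLike.mem_coe.2 (by assumption)) | exact DT.const (by assumption))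
    · exact DP.comp3 hF1 (by beta_reduce; repeat' with_reducible first | exact DT.proj _ | exact DT.zero | exact DT.one | apply DT.pr | apply DT.add | apply DT.mul | exact DT.const (Set.mem_univ _) | exact DT.const (SetLike.mem_coe.2 (by assumption)) | exact DT.const (by assumption)) (by beta_reduce; repeat' with_reducible first | exact DT.proj _ | exact DT.zero | exact DT.one | apply DT.pr | apply DT.add | apply DT.mul | exact DT.const (Set.mem_univ _) | exact DT.const (SetLike.mem_coe.2 (by assumption)) | exact DT.const (by assumption)) (by beta_reduce; repeat' with_reducible first | exact DT.proj _ | exact DT.zero | exact DT.one | apply DT.pr | apply DT.add | apply DT.mul | exact DT.const (Set.mem_univ _) | exact DT.const (SetLike.mem_coe.2 (by assumption)) | exact DT.const (by assumption))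
    · exact DP.comp3 hF1 (by beta_reduce; repeat' with_reducible first | exact DT.proj _ | exact DT.zero | exact DT.one | apply DT.pr | apply DT.add | apply DT.mul | exact DT.const (Set.mem_univ _) | exact DT.const (SetLike.mem_coe.2 (by assumption)) | exact DT.const (by assumption)) (by beta_reduce; repeat' with_reducible first | exact DT.proj _ | exact DT.zero | exact DT.one | apply DT.pr | apply DT.add | apply DT.mul | exact DT.const (Set.mem_univ _) | exact DT.const (SetLike.mem_coe.2 (by assumption)) | exact DT.const (by assumption)) (by beta_reduce; repeat' with_reducible first | exact DT.proj _ | exact DT.zero | exact DT.one | apply DT.pr | apply DT.add | apply DT.mul | exact DT.const (Set.mem_univ _) | exact DT.const (SetLike.mem_coe.2 (by assumption)) | exact DT.const (by assumption))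
    · exact DP.comp3 hF2 (by beta_reduce; repeat' with_reducible first | exact DT.proj _ | exact DT.zero | exact DT.one | apply DT.pr | apply DT.add | apply DT.mul | exact DT.const (Set.mem_univ _) | exact DT.const (SetLike.mem_coe.2 (by assumption)) | exact DT.const (by assumption)) (by beta_reduce; repeat' with_reducible first | exact DT.proj _ | exact DT.zero | exact DT.one | apply DT.pr | apply DT.add | apply DT.mul | exact DT.const (Set.mem_univ _) | exact DT.const (SetLike.mem_coe.2 (by assumption)) | exact DT.const (by assumption)) (by beta_reduce; repeat' with_reducible first | exact DT.proj _ | exact DT.zero | exact DT.one | apply DT.pr | apply DT.add | apply DT.mul | exact DT.const (Set.mem_univ _) | exact DT.const (SetLike.mem_coe.2 (by assumption)) | exact DT.const (by assumption))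
    · exact DP.comp3 hF2 (by beta_reduce; repeat' with_reducible first | exact DT.proj _ | exact DT.zero | exact DT.one | apply DT.pr | apply DT.add | apply DT.mul | exact DT.const (Set.mem_univ _) | exact DT.const (SetLike.mem_coe.2 (by assumption)) | exact DT.const (by assumption)) (by beta_reduce; repeat' with_reducible first | exact DT.proj _ | exact DT.zero | exact DT.one | apply DT.pr | apply DT.add | apply DT.mul | exact DT.const (Set.mem_univ _) | exact DT.const (SetLike.mem_coe.2 (by assumption)) | exact DT.const (by assumption)) (by beta_reduce; repeat' with_reducible first | exact DT.proj _ | exact DT.zero | exact DT.one | apply DT.pr | apply DT.add | apply DT.mul | exact DT.const (Set.mem_univ _) | exact DT.const (SetLike.mem_coe.2 (by assumption)) | exact DT.const (by assumption))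
  have hGc : G c b b' := by
    rw [hGdef]
    exact ⟨⟨(hF1' b').2 rfl, fun v' h => (hF1' v').1 h⟩, ⟨(hF2' b).2 rfl, fun u' h => (hF2' u').1 h⟩⟩
  have hGfun : ∀ {i u v w}, G i u v → G i u w → v = w := by
    intro i u v w h h'
    rw [hGdef] at h h'
    exact h'.1.2 v h.1.1
  have hGinj : ∀ {i u v w}, G i u w → G i v w → u = v := by
    intro i u v w h h'
    rw [hGdef] at h h'
    exact h'.2.2 u h.2.1
  -- the number of colours
  obtain ⟨n, hnM, hn⟩ := exists_mem M _ (by repeat' (beta_reduce; with_reducible first | apply DP.not | apply DP.all | apply DP.ex | apply DP.imp | apply DP.and | apply DP.or | apply DP.iff | apply DP.In3 | apply DP.In2 | apply DP.Val | apply DP.In | apply DP.le | apply DP.lt | apply DP.eq | exact DT.proj _ | exact DT.zero | exact DT.one | apply DT.pr | apply DT.add | apply DT.mul | exact DT.const (Set.mem_univ _) | exact DT.const (SetLike.mem_coe.2 (by assumption)) | exact DT.const (by assumption))) (colouring hN s)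
  have hnV := hMV hnM
  have hsV := hMV hs
  -- the code of the graph
  obtain ⟨R, hRV, hR⟩ : ∃ R ∈ V, ∀ i u v, Lt i s → Lt u T → Lt v T →
      (In3 R i u v ↔ G i u v) := by
    refine exists_mem V (fun R => ∀ i u v, Lt i s → Lt u T → Lt v T →
      (In3 R i u v ↔ G i u v)) ?_ ?_
    · repeat' (beta_reduce; with_reducible first | apply DP.not | apply DP.all | apply DP.ex | apply DP.imp | apply DP.and | apply DP.or | apply DP.iff | apply DP.In3 | apply DP.In2 | apply DP.Val | apply DP.In | apply DP.le | apply DP.lt | apply DP.eq | exact DT.proj _ | exact DT.zero | exact DT.one | apply DT.pr | apply DT.add | apply DT.mul | exact DT.const (Set.mem_univ _) | exact DT.const (SetLike.mem_coe.2 (by assumption)) | exact DT.const (by assumption))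
      exact DP.comp3 (DP.mono hMV hG) (by beta_reduce; repeat' with_reducible first | exact DT.proj _ | exact DT.zero | exact DT.one | apply DT.pr | apply DT.add | apply DT.mul | exact DT.const (Set.mem_univ _) | exact DT.const (SetLike.mem_coe.2 (by assumption)) | exact DT.const (by assumption)) (by beta_reduce; repeat' with_reducible first | exact DT.proj _ | exact DT.zero | exact DT.one | apply DT.pr | apply DT.add | apply DT.mul | exact DT.const (Set.mem_univ _) | exact DT.const (SetLike.mem_coe.2 (by assumption)) | exact DT.const (by assumption)) (by beta_reduce; repeat' with_reducible first | exact DT.proj _ | exact DT.zero | exact DT.one | apply DT.pr | apply DT.add | apply DT.mul | exact DT.const (Set.mem_univ _) | exact DT.const (SetLike.mem_coe.2 (by assumption)) | exact DT.const (by assumption))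
    · obtain ⟨R, hR⟩ := comp3 hN G (DP.mono (Set.subset_univ _) hG) (s + T)
      exact ⟨R, fun i u v hi hu hv => hR i u v (le_trans' (le_of_lt' hi) (le_add_right' _ _))
        (le_trans' (le_of_lt' hu) (le_add_left' _ _)) (le_trans' (le_of_lt' hv) (le_add_left' _ _))⟩
  have hPI : PInj s T R := by
    intro i u v hi hu hv h
    rw [hR i u v hi hu hv] at h
    refine ⟨fun w hw h' => ?_, fun w hw h' => ?_⟩
    · rw [hR i u w hi hu hw] at h'
      exact hGfun h h'
    · rw [hR i w v hi hw hv] at h'
      exact hGinj h h'
  -- the colouring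
  obtain ⟨χ, hχV, hχ, hχ'⟩ := exists_mem V _ (by repeat' (beta_reduce; with_reducible first | apply DP.not | apply DP.all | apply DP.ex | apply DP.imp | apply DP.and | apply DP.or | apply DP.iff | apply DP.In3 | apply DP.In2 | apply DP.Val | apply DP.In | apply DP.le | apply DP.lt | apply DP.eq | exact DT.proj _ | exact DT.zero | exact DT.one | apply DT.pr | apply DT.add | apply DT.mul | exact DT.const (Set.mem_univ _) | exact DT.const (SetLike.mem_coe.2 (by assumption)) | exact DT.const (by assumption))) (hn T R hPI)
  obtain ⟨k0, hk0n, hk0⟩ := hχ b hbT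
  obtain ⟨k1, hk1n, hk1⟩ := hχ b' hbT'
  have hχX := hVX hχV
  have hχY := hVY hχV
  have hk0W : k0 ∈ W := hWX k0 n (unique_mem X (fun k => Val χ b k) (by repeat' (beta_reduce; with_reducible first | apply DP.not | apply DP.all | apply DP.ex | apply DP.imp | apply DP.and | apply DP.or | apply DP.iff | apply DP.In3 | apply DP.In2 | apply DP.Val | apply DP.In | apply DP.le | apply DP.lt | apply DP.eq | exact DT.proj _ | exact DT.zero | exact DT.one | apply DT.pr | apply DT.add | apply DT.mul | exact DT.const (Set.mem_univ _) | exact DT.const (SetLike.mem_coe.2 (by assumption)) | exact DT.const (by assumption))) hk0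
    (fun x hx => Val.unique hN hx hk0)) hnM hk0n
  have hk1W : k1 ∈ W := hWY k1 n (unique_mem Y (fun k => Val χ b' k) (by repeat' (beta_reduce; with_reducible first | apply DP.not | apply DP.all | apply DP.ex | apply DP.imp | apply DP.and | apply DP.or | apply DP.iff | apply DP.In3 | apply DP.In2 | apply DP.Val | apply DP.In | apply DP.le | apply DP.lt | apply DP.eq | exact DT.proj _ | exact DT.zero | exact DT.one | apply DT.pr | apply DT.add | apply DT.mul | exact DT.const (Set.mem_univ _) | exact DT.const (SetLike.mem_coe.2 (by assumption)) | exact DT.const (by assumption))) hk1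
    (fun x hx => Val.unique hN hx hk1)) hnM hk1n
  obtain ⟨J0, hJ0, hJ0'⟩ := exists_rel (hWc k0 hk0W)
  obtain ⟨J1, hJ1, hJ1'⟩ := exists_rel (hWc k1 hk1W)
  -- the pruned graph
  obtain ⟨R', hR'V, hR'⟩ : ∃ R' ∈ V, ∀ i u v, Lt i s → Lt u T → Lt v T →
      (In3 R' i u v ↔ In3 R i u v ∧ ∃ k k', (J0 i i k ∧ ∀ l, J0 i i l → l = k) ∧
        (J1 i i k' ∧ ∀ l, J1 i i l → l = k') ∧ Val χ u k ∧ Val χ v k') := by
    have hD : ∀ Z : Set N, (M : Set N) ⊆ Z → R ∈ Z → χ ∈ Z →
        DP Z (fun v : Fin 3 → N => In3 R (v 0) (v 1) (v 2) ∧ ∃ k k',
        (J0 (v 0) (v 0) k ∧ ∀ l, J0 (v 0) (v 0) l → l = k) ∧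
        (J1 (v 0) (v 0) k' ∧ ∀ l, J1 (v 0) (v 0) l → l = k') ∧ Val χ (v 1) k ∧ Val χ (v 2) k') := by
      intro Z hZ hRZ hχZ
      repeat' (beta_reduce; with_reducible first | apply DP.not | apply DP.all | apply DP.ex | apply DP.imp | apply DP.and | apply DP.or | apply DP.iff | apply DP.In3 | apply DP.In2 | apply DP.Val | apply DP.In | apply DP.le | apply DP.lt | apply DP.eq | exact DT.proj _ | exact DT.zero | exact DT.one | apply DT.pr | apply DT.add | apply DT.mul | exact DT.const (Set.mem_univ _) | exact DT.const (SetLike.mem_coe.2 (by assumption)) | exact DT.const (by assumption))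
      · exact DP.comp3 (DP.mono hZ hJ0) (by beta_reduce; repeat' with_reducible first | exact DT.proj _ | exact DT.zero | exact DT.one | apply DT.pr | apply DT.add | apply DT.mul | exact DT.const (Set.mem_univ _) | exact DT.const (SetLike.mem_coe.2 (by assumption)) | exact DT.const (by assumption)) (by beta_reduce; repeat' with_reducible first | exact DT.proj _ | exact DT.zero | exact DT.one | apply DT.pr | apply DT.add | apply DT.mul | exact DT.const (Set.mem_univ _) | exact DT.const (SetLike.mem_coe.2 (by assumption)) | exact DT.const (by assumption)) (by beta_reduce; repeat' with_reducible first | exact DT.proj _ | exact DT.zero | exact DT.one | apply DT.pr | apply DT.add | apply DT.mul | exact DT.const (Set.mem_univ _) | exact DT.const (SetLike.mem_coe.2 (by assumption)) | exact DT.const (by assumption))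
      · exact DP.comp3 (DP.mono hZ hJ0) (by beta_reduce; repeat' with_reducible first | exact DT.proj _ | exact DT.zero | exact DT.one | apply DT.pr | apply DT.add | apply DT.mul | exact DT.const (Set.mem_univ _) | exact DT.const (SetLike.mem_coe.2 (by assumption)) | exact DT.const (by assumption)) (by beta_reduce; repeat' with_reducible first | exact DT.proj _ | exact DT.zero | exact DT.one | apply DT.pr | apply DT.add | apply DT.mul | exact DT.const (Set.mem_univ _) | exact DT.const (SetLike.mem_coe.2 (by assumption)) | exact DT.const (by assumption)) (by beta_reduce; repeat' with_reducible first | exact DT.proj _ | exact DT.zero | exact DT.one | apply DT.pr | apply DT.add | apply DT.mul | exact DT.const (Set.mem_univ _) | exact DT.const (SetLike.mem_coe.2 (by assumption)) | exact DT.const (by assumption))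
      · exact DP.comp3 (DP.mono hZ hJ1) (by beta_reduce; repeat' with_reducible first | exact DT.proj _ | exact DT.zero | exact DT.one | apply DT.pr | apply DT.add | apply DT.mul | exact DT.const (Set.mem_univ _) | exact DT.const (SetLike.mem_coe.2 (by assumption)) | exact DT.const (by assumption)) (by beta_reduce; repeat' with_reducible first | exact DT.proj _ | exact DT.zero | exact DT.one | apply DT.pr | apply DT.add | apply DT.mul | exact DT.const (Set.mem_univ _) | exact DT.const (SetLike.mem_coe.2 (by assumption)) | exact DT.const (by assumption)) (by beta_reduce; repeat' with_reducible first | exact DT.proj _ | exact DT.zero | exact DT.one | apply DT.pr | apply DT.add | apply DT.mul | exact DT.const (Set.mem_univ _) | exact DT.const (SetLike.mem_coe.2 (by assumption)) | exact DT.const (by assumption))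
      · exact DP.comp3 (DP.mono hZ hJ1) (by beta_reduce; repeat' with_reducible first | exact DT.proj _ | exact DT.zero | exact DT.one | apply DT.pr | apply DT.add | apply DT.mul | exact DT.const (Set.mem_univ _) | exact DT.const (SetLike.mem_coe.2 (by assumption)) | exact DT.const (by assumption)) (by beta_reduce; repeat' with_reducible first | exact DT.proj _ | exact DT.zero | exact DT.one | apply DT.pr | apply DT.add | apply DT.mul | exact DT.const (Set.mem_univ _) | exact DT.const (SetLike.mem_coe.2 (by assumption)) | exact DT.const (by assumption)) (by beta_reduce; repeat' with_reducible first | exact DT.proj _ | exact DT.zero | exact DT.one | apply DT.pr | apply DT.add | apply DT.mul | exact DT.const (Set.mem_univ _) | exact DT.const (SetLike.mem_coe.2 (by assumption)) | exact DT.const (by assumption))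
    refine exists_mem V (fun R' => ∀ i u v, Lt i s → Lt u T → Lt v T →
      (In3 R' i u v ↔ In3 R i u v ∧ ∃ k k', (J0 i i k ∧ ∀ l, J0 i i l → l = k) ∧
        (J1 i i k' ∧ ∀ l, J1 i i l → l = k') ∧ Val χ u k ∧ Val χ v k')) ?_ ?_
    · repeat' (beta_reduce; with_reducible first | apply DP.not | apply DP.all | apply DP.ex | apply DP.imp | apply DP.and | apply DP.or | apply DP.iff | apply DP.In3 | apply DP.In2 | apply DP.Val | apply DP.In | apply DP.le | apply DP.lt | apply DP.eq | exact DT.proj _ | exact DT.zero | exact DT.one | apply DT.pr | apply DT.add | apply DT.mul | exact DT.const (Set.mem_univ _) | exact DT.const (SetLike.mem_coe.2 (by assumption)) | exact DT.const (by assumption))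
      · exact DP.comp3 (DP.mono hMV hJ0) (by beta_reduce; repeat' with_reducible first | exact DT.proj _ | exact DT.zero | exact DT.one | apply DT.pr | apply DT.add | apply DT.mul | exact DT.const (Set.mem_univ _) | exact DT.const (SetLike.mem_coe.2 (by assumption)) | exact DT.const (by assumption)) (by beta_reduce; repeat' with_reducible first | exact DT.proj _ | exact DT.zero | exact DT.one | apply DT.pr | apply DT.add | apply DT.mul | exact DT.const (Set.mem_univ _) | exact DT.const (SetLike.mem_coe.2 (by assumption)) | exact DT.const (by assumption)) (by beta_reduce; repeat' with_reducible first | exact DT.proj _ | exact DT.zero | exact DT.one | apply DT.pr | apply DT.add | apply DT.mul | exact DT.const (Set.mem_univ _) | exact DT.const (SetLike.mem_coe.2 (by assumption)) | exact DT.const (by assumption))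
      · exact DP.comp3 (DP.mono hMV hJ0) (by beta_reduce; repeat' with_reducible first | exact DT.proj _ | exact DT.zero | exact DT.one | apply DT.pr | apply DT.add | apply DT.mul | exact DT.const (Set.mem_univ _) | exact DT.const (SetLike.mem_coe.2 (by assumption)) | exact DT.const (by assumption)) (by beta_reduce; repeat' with_reducible first | exact DT.proj _ | exact DT.zero | exact DT.one | apply DT.pr | apply DT.add | apply DT.mul | exact DT.const (Set.mem_univ _) | exact DT.const (SetLike.mem_coe.2 (by assumption)) | exact DT.const (by assumption)) (by beta_reduce; repeat' with_reducible first | exact DT.proj _ | exact DT.zero | exact DT.one | apply DT.pr | apply DT.add | apply DT.mul | exact DT.const (Set.mem_univ _) | exact DT.const (SetLike.mem_coe.2 (by assumption)) | exact DT.const (by assumption))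
      · exact DP.comp3 (DP.mono hMV hJ1) (by beta_reduce; repeat' with_reducible first | exact DT.proj _ | exact DT.zero | exact DT.one | apply DT.pr | apply DT.add | apply DT.mul | exact DT.const (Set.mem_univ _) | exact DT.const (SetLike.mem_coe.2 (by assumption)) | exact DT.const (by assumption)) (by beta_reduce; repeat' with_reducible first | exact DT.proj _ | exact DT.zero | exact DT.one | apply DT.pr | apply DT.add | apply DT.mul | exact DT.const (Set.mem_univ _) | exact DT.const (SetLike.mem_coe.2 (by assumption)) | exact DT.const (by assumption)) (by beta_reduce; repeat' with_reducible first | exact DT.proj _ | exact DT.zero | exact DT.one | apply DT.pr | apply DT.add | apply DT.mul | exact DT.const (Set.mem_univ _) | exact DT.const (SetLike.mem_coe.2 (by assumption)) | exact DT.const (by assumption))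
      · exact DP.comp3 (DP.mono hMV hJ1) (by beta_reduce; repeat' with_reducible first | exact DT.proj _ | exact DT.zero | exact DT.one | apply DT.pr | apply DT.add | apply DT.mul | exact DT.const (Set.mem_univ _) | exact DT.const (SetLike.mem_coe.2 (by assumption)) | exact DT.const (by assumption)) (by beta_reduce; repeat' with_reducible first | exact DT.proj _ | exact DT.zero | exact DT.one | apply DT.pr | apply DT.add | apply DT.mul | exact DT.const (Set.mem_univ _) | exact DT.const (SetLike.mem_coe.2 (by assumption)) | exact DT.const (by assumption)) (by beta_reduce; repeat' with_reducible first | exact DT.proj _ | exact DT.zero | exact DT.one | apply DT.pr | apply DT.add | apply DT.mul | exact DT.const (Set.mem_univ _) | exact DT.const (SetLike.mem_coe.2 (by assumption)) | exact DT.const (by assumption))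
    · obtain ⟨R', hR'⟩ := comp3 hN (fun i u v => In3 R i u v ∧ ∃ k k',
        (J0 i i k ∧ ∀ l, J0 i i l → l = k) ∧ (J1 i i k' ∧ ∀ l, J1 i i l → l = k') ∧
        Val χ u k ∧ Val χ v k') (hD Set.univ (Set.subset_univ _) trivial trivial) (s + T)
      exact ⟨R', fun i u v hi hu hv => hR' i u v (le_trans' (le_of_lt' hi) (le_add_right' _ _))
        (le_trans' (le_of_lt' hu) (le_add_left' _ _)) (le_trans' (le_of_lt' hv) (le_add_left' _ _))⟩
  have hPr : Pruned s T R χ R' := by
    intro i hi
    by_cases hex : (∃ k, J0 i i k ∧ ∀ l, J0 i i l → l = k) ∧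
        (∃ k', J1 i i k' ∧ ∀ l, J1 i i l → l = k')
    · obtain ⟨⟨k, hk⟩, ⟨k', hk'⟩⟩ := hex
      refine ⟨k, k', fun u v hu hv h => ?_⟩
      rw [hR' i u v hi hu hv] at h
      obtain ⟨h1, l, l', h2, h3, h4, h5⟩ := h
      have e1 := hk.2 l h2.1
      have e2 := hk'.2 l' h3.1
      rw [e1] at h4
      rw [e2] at h5
      exact ⟨h1, h4, h5⟩
    · refine ⟨0, 0, fun u v hu hv h => ?_⟩
      rw [hR' i u v hi hu hv] at h
      obtain ⟨h1, l, l', h2, h3, h4, h5⟩ := h
      exact absurd ⟨⟨l, h2⟩, ⟨l', h3⟩⟩ hex
  -- the equivalence relation
  obtain ⟨E, hEV, ⟨hE0, hE1, hE2⟩, hE3, hE4⟩ := exists_mem V _ (by repeat' (beta_reduce; with_reducible first | apply DP.not | apply DP.all | apply DP.ex | apply DP.imp | apply DP.and | apply DP.or | apply DP.iff | apply DP.In3 | apply DP.In2 | apply DP.Val | apply DP.In | apply DP.le | apply DP.lt | apply DP.eq | exact DT.proj _ | exact DT.zero | exact DT.one | apply DT.pr | apply DT.add | apply DT.mul | exact DT.const (Set.mem_univ _) | exact DT.const (SetLike.mem_coe.2 (by assumption)) | exact DT.const (by assumption))) (hχ' R' hPr)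
  have hEb : In2 E b b' := by
    refine hE3 c b b' hcs hbT hbT' ?_
    rw [hR' c b b' hcs hbT hbT', hR c b b' hcs hbT hbT']
    exact ⟨hGc, k0, k1, ⟨(hJ0' k0).2 rfl, fun l hl => (hJ0' l).1 hl⟩,
      ⟨(hJ1' k1).2 rfl, fun l hl => (hJ1' l).1 hl⟩, hk0, hk1⟩
  -- the least element of the class
  obtain ⟨e, ⟨heT, hebe⟩, hemin⟩ := least1 hN (fun x => Lt x T ∧ In2 E b x) (by repeat' (beta_reduce; with_reducible first | apply DP.not | apply DP.all | apply DP.ex | apply DP.imp | apply DP.and | apply DP.or | apply DP.iff | apply DP.In3 | apply DP.In2 | apply DP.Val | apply DP.In | apply DP.le | apply DP.lt | apply DP.eq | exact DT.proj _ | exact DT.zero | exact DT.one | apply DT.pr | apply DT.add | apply DT.mul | exact DT.const (Set.mem_univ _) | exact DT.const (SetLike.mem_coe.2 (by assumption)) | exact DT.const (by assumption)))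
    ⟨b, hbT, hE0 b hbT⟩
  have hEX := hVX hEV
  have hEY := hVY hEV
  have hTX := hVX hT
  have hTY := hVY hT
  have heX : e ∈ X := by
    refine unique_mem X (fun x => (Lt x T ∧ In2 E b x) ∧ ∀ z, Lt z T ∧ In2 E b z → Le x z)
      (by repeat' (beta_reduce; with_reducible first | apply DP.not | apply DP.all | apply DP.ex | apply DP.imp | apply DP.and | apply DP.or | apply DP.iff | apply DP.In3 | apply DP.In2 | apply DP.Val | apply DP.In | apply DP.le | apply DP.lt | apply DP.eq | exact DT.proj _ | exact DT.zero | exact DT.one | apply DT.pr | apply DT.add | apply DT.mul | exact DT.const (Set.mem_univ _) | exact DT.const (SetLike.mem_coe.2 (by assumption)) | exact DT.const (by assumption))) ⟨⟨heT, hebe⟩, hemin⟩ (fun x hx => ?_)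
    exact hN.le_antisymm (hx.2 e ⟨heT, hebe⟩) (hemin x hx.1)
  have heY : e ∈ Y := by
    have hb'e : ∀ x, Lt x T → (In2 E b' x ↔ In2 E b x) := fun x hx =>
      ⟨fun h => hE2 b b' x hbT hbT' hx hEb h,
        fun h => hE2 b' b x hbT' hbT hx (hE1 b b' hbT hbT' hEb) h⟩
    refine unique_mem Y (fun x => (Lt x T ∧ In2 E b' x) ∧ ∀ z, Lt z T ∧ In2 E b' z → Le x z)
      (by repeat' (beta_reduce; with_reducible first | apply DP.not | apply DP.all | apply DP.ex | apply DP.imp | apply DP.and | apply DP.or | apply DP.iff | apply DP.In3 | apply DP.In2 | apply DP.Val | apply DP.In | apply DP.le | apply DP.lt | apply DP.eq | exact DT.proj _ | exact DT.zero | exact DT.one | apply DT.pr | apply DT.add | apply DT.mul | exact DT.const (Set.mem_univ _) | exact DT.const (SetLike.mem_coe.2 (by assumption)) | exact DT.const (by assumption))) ⟨⟨heT, (hb'e e heT).2 hebe⟩, fun z hz => hemin z ⟨hz.1, (hb'e z hz.1).1 hz.2⟩⟩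
      (fun x hx => ?_)
    exact hN.le_antisymm (hx.2 e ⟨heT, (hb'e e heT).2 hebe⟩) (hemin x ⟨hx.1.1, (hb'e x hx.1.1).1 hx.1.2⟩)
  have heV := hXY e heX heY
  -- conclusion
  have heK := hVK heV
  have hEK := hVK hEV
  have hTK := hVK hT
  have hχK := hVK hχV
  have hkK := hWK hk0W
  refine unique_mem K (fun u => Lt u T ∧ In2 E u e ∧ Val χ u k0) (by repeat' (beta_reduce; with_reducible first | apply DP.not | apply DP.all | apply DP.ex | apply DP.imp | apply DP.and | apply DP.or | apply DP.iff | apply DP.In3 | apply DP.In2 | apply DP.Val | apply DP.In | apply DP.le | apply DP.lt | apply DP.eq | exact DT.proj _ | exact DT.zero | exact DT.one | apply DT.pr | apply DT.add | apply DT.mul | exact DT.const (Set.mem_univ _) | exact DT.const (SetLike.mem_coe.2 (by assumption)) | exact DT.const (by assumption))) ⟨hbT, hebe, hk0⟩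
    (fun u hu => ?_)
  exact hE4 u b k0 hu.1 hbT (hE2 u e b hu.1 heT hbT hu.2.1 (hE1 b e hbT heT hebe)) hu.2.2 hk0

end

end Pool.InterD
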