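import Pool.Agent.InterD.Rec

/-!
# Intersections of cofinal finitely generated elementary substructures
-/

set_option linter.unusedTactic false
set_option linter.unreachableTactic false

open FirstOrder FirstOrder.Language FirstOrder.Ring

namespace Pool.InterD

open Pool.Interstr Pool.InterPA

section

variable {N : Type} [CommSemiring N] [Neg N] [CompatibleRing N]

/-- Main argument for condition (A). -/
theorem keyA (hN : IsPA N) (V X Y : Language.ring.ElementarySubstructure N)
    (hVX : V ≤ X) (hVY : V ≤ Y) (hXY : ∀ t, t ∈ X → t ∈ Y → t ∈ V) {b b' g : N} (hb : b ∈ X)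
    (hb' : b' ∈ Y) (hbb' : Le b b') (hg : Le b' g) (hgb : g ∈ dclo ((V : Set N) ∪ {b, b})) :
    ∃ t ∈ V, Le b t := by
  obtain ⟨G0, hG0, hG0'⟩ := exists_rel hgb
  obtain ⟨G, hG, hGdef⟩ : ∃ G : N → N → Prop,
      DP (V : Set N) (fun v : Fin 2 → N => G (v 0) (v 1)) ∧ ∀ u k, G u k ↔
        (G0 u u k ∧ ∀ k', G0 u u k' → k' = k) := by
    refine ⟨fun u k => G0 u u k ∧ ∀ k', G0 u u k' → k' = k, ?_, fun _ _ => Iff.rfl⟩
    repeat' (beta_reduce; with_reducible first | apply DP.not | apply DP.all | apply DP.ex | apply DP.imp | apply DP.and | apply DP.or | apply DP.iff | apply DP.In3 | apply DP.In2 | apply DP.Val | apply DP.In | apply DP.le | apply DP.lt | apply DP.eq | exact DT.proj _ | exact DT.zero | exact DT.one | apply DT.pr | apply DT.add | apply DT.mul | exact DT.const (Set.mem_univ _) | exact DT.const (SetLike.mem_coe.2 (by assumption)) | exact DT.const (by assumption))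
    · exact DP.comp3 hG0 (by beta_reduce; repeat' with_reducible first | exact DT.proj _ | exact DT.zero | exact DT.one | apply DT.pr | apply DT.add | apply DT.mul | exact DT.const (Set.mem_univ _) | exact DT.const (SetLike.mem_coe.2 (by assumption)) | exact DT.const (by assumption)) (by beta_reduce; repeat' with_reducible first | exact DT.proj _ | exact DT.zero | exact DT.one | apply DT.pr | apply DT.add | apply DT.mul | exact DT.const (Set.mem_univ _) | exact DT.const (SetLike.mem_coe.2 (by assumption)) | exact DT.const (by assumption)) (by beta_reduce; repeat' with_reducible first | exact DT.proj _ | exact DT.zero | exact DT.one | apply DT.pr | apply DT.add | apply DT.mul | exact DT.const (Set.mem_univ _) | exact DT.const (SetLike.mem_coe.2 (by assumption)) | exact DT.const (by assumption))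
    · exact DP.comp3 hG0 (by beta_reduce; repeat' with_reducible first | exact DT.proj _ | exact DT.zero | exact DT.one | apply DT.pr | apply DT.add | apply DT.mul | exact DT.const (Set.mem_univ _) | exact DT.const (SetLike.mem_coe.2 (by assumption)) | exact DT.const (by assumption)) (by beta_reduce; repeat' with_reducible first | exact DT.proj _ | exact DT.zero | exact DT.one | apply DT.pr | apply DT.add | apply DT.mul | exact DT.const (Set.mem_univ _) | exact DT.const (SetLike.mem_coe.2 (by assumption)) | exact DT.const (by assumption)) (by beta_reduce; repeat' with_reducible first | exact DT.proj _ | exact DT.zero | exact DT.one | apply DT.pr | apply DT.add | apply DT.mul | exact DT.const (Set.mem_univ _) | exact DT.const (SetLike.mem_coe.2 (by assumption)) | exact DT.const (by assumption))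
  have hGb : G b g := by
    rw [hGdef]
    exact ⟨(hG0' g).2 rfl, fun k' h => (hG0' k').1 h⟩
  have hGfun : ∀ {u k k'}, G u k → G u k' → k = k' := by
    intro u k k' h h'
    rw [hGdef] at h h'
    exact h'.2 k h.1
  have hGu : DP Set.univ (fun v : Fin 2 → N => G (v 0) (v 1)) := DP.mono (Set.subset_univ _) hG
  -- a fast growing function
  obtain ⟨F, hF, hFdef⟩ : ∃ F : N → N → Prop,
      DP (V : Set N) (fun v : Fin 2 → N => F (v 0) (v 1)) ∧ ∀ u k, F u k ↔
        ((∀ a l, Le a u → G a l → Le l k) ∧ Lt u k) ∧
          ∀ k', (∀ a l, Le a u → G a l → Le l k') → Lt u k' → Le k k' := by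
    refine ⟨fun u k => ((∀ a l, Le a u → G a l → Le l k) ∧ Lt u k) ∧
      ∀ k', (∀ a l, Le a u → G a l → Le l k') → Lt u k' → Le k k', ?_, fun _ _ => Iff.rfl⟩
    repeat' (beta_reduce; with_reducible first | apply DP.not | apply DP.all | apply DP.ex | apply DP.imp | apply DP.and | apply DP.or | apply DP.iff | apply DP.In3 | apply DP.In2 | apply DP.Val | apply DP.In | apply DP.le | apply DP.lt | apply DP.eq | exact DT.proj _ | exact DT.zero | exact DT.one | apply DT.pr | apply DT.add | apply DT.mul | exact DT.const (Set.mem_univ _) | exact DT.const (SetLike.mem_coe.2 (by assumption)) | exact DT.const (by assumption))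
    · exact DP.comp2 hG (by beta_reduce; repeat' with_reducible first | exact DT.proj _ | exact DT.zero | exact DT.one | apply DT.pr | apply DT.add | apply DT.mul | exact DT.const (Set.mem_univ _) | exact DT.const (SetLike.mem_coe.2 (by assumption)) | exact DT.const (by assumption)) (by beta_reduce; repeat' with_reducible first | exact DT.proj _ | exact DT.zero | exact DT.one | apply DT.pr | apply DT.add | apply DT.mul | exact DT.const (Set.mem_univ _) | exact DT.const (SetLike.mem_coe.2 (by assumption)) | exact DT.const (by assumption))
    · exact DP.comp2 hG (by beta_reduce; repeat' with_reducible first | exact DT.proj _ | exact DT.zero | exact DT.one | apply DT.pr | apply DT.add | apply DT.mul | exact DT.const (Set.mem_univ _) | exact DT.const (SetLike.mem_coe.2 (by assumption)) | exact DT.const (by assumption)) (by beta_reduce; repeat' with_reducible first | exact DT.proj _ | exact DT.zero | exact DT.one | apply DT.pr | apply DT.add | apply DT.mul | exact DT.const (Set.mem_univ _) | exact DT.const (SetLike.mem_coe.2 (by assumption)) | exact DT.const (by assumption))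
  have hFu : DP Set.univ (fun v : Fin 2 → N => F (v 0) (v 1)) := DP.mono (Set.subset_univ _) hF
  have hF2 : ∀ k k' k'', F k k' → F k k'' → k' = k'' := by
    intro k k' k'' h h'
    rw [hFdef] at h h'
    exact hN.le_antisymm (h.2 k'' h'.1.1 h'.1.2) (h'.2 k' h.1.1 h.1.2)
  have hF1 : ∀ k, ∃ k', F k k' := by
    intro k
    obtain ⟨n, hn⟩ := coll hN G hGu (k + 1)
    have hex : ∃ x, (∀ a l, Le a k → G a l → Le l x) ∧ Lt k x := by
      refine ⟨n + (k + 1), fun a l ha hl => ?_, lt_of_lt_of_le' (lt_succ_self k) (le_add_left' _ _)⟩
      obtain ⟨l', hl', hl''⟩ := hn a (hN.lt_succ_iff.2 ha) ⟨l, hl⟩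
      rw [hGfun hl hl'']
      exact le_trans' hl' (le_add_right' _ _)
    obtain ⟨x, hx, hx'⟩ := least1 hN (fun x => (∀ a l, Le a k → G a l → Le l x) ∧ Lt k x) (by
      repeat' (beta_reduce; with_reducible first | apply DP.not | apply DP.all | apply DP.ex | apply DP.imp | apply DP.and | apply DP.or | apply DP.iff | apply DP.In3 | apply DP.In2 | apply DP.Val | apply DP.In | apply DP.le | apply DP.lt | apply DP.eq | exact DT.proj _ | exact DT.zero | exact DT.one | apply DT.pr | apply DT.add | apply DT.mul | exact DT.const (Set.mem_univ _) | exact DT.const (SetLike.mem_coe.2 (by assumption)) | exact DT.const (by assumption))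
      exact DP.comp2 hGu (by beta_reduce; repeat' with_reducible first | exact DT.proj _ | exact DT.zero | exact DT.one | apply DT.pr | apply DT.add | apply DT.mul | exact DT.const (Set.mem_univ _) | exact DT.const (SetLike.mem_coe.2 (by assumption)) | exact DT.const (by assumption)) (by beta_reduce; repeat' with_reducible first | exact DT.proj _ | exact DT.zero | exact DT.one | apply DT.pr | apply DT.add | apply DT.mul | exact DT.const (Set.mem_univ _) | exact DT.const (SetLike.mem_coe.2 (by assumption)) | exact DT.const (by assumption))) hex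
    refine ⟨x, ?_⟩
    rw [hFdef]
    exact ⟨hx, fun k' h1 h2 => hx' k' ⟨h1, h2⟩⟩
  have hIt : DP (V : Set N) (fun v : Fin 2 → N => It F (v 0) (v 1)) := DP.It hF
  have hItu : DP Set.univ (fun v : Fin 2 → N => It F (v 0) (v 1)) := DP.It hFu
  -- the sequence is unbounded
  have hunb : ∀ i, ∃ τ, It F i τ ∧ Le i τ := by
    refine ind1 hN (fun i : N => ∃ τ, It F i τ ∧ Le i τ) ?_ ?_ ?_
    · repeat' (beta_reduce; with_reducible first | apply DP.not | apply DP.all | apply DP.ex | apply DP.imp | apply DP.and | apply DP.or | apply DP.iff | apply DP.In3 | apply DP.In2 | apply DP.Val | apply DP.In | apply DP.le | apply DP.lt | apply DP.eq | exact DT.proj _ | exact DT.zero | exact DT.one | apply DT.pr | apply DT.add | apply DT.mul | exact DT.const (Set.mem_univ _) | exact DT.const (SetLike.mem_coe.2 (by assumption)) | exact DT.const (by assumption))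
      exact DP.comp2 hItu (by beta_reduce; repeat' with_reducible first | exact DT.proj _ | exact DT.zero | exact DT.one | apply DT.pr | apply DT.add | apply DT.mul | exact DT.const (Set.mem_univ _) | exact DT.const (SetLike.mem_coe.2 (by assumption)) | exact DT.const (by assumption)) (by beta_reduce; repeat' with_reducible first | exact DT.proj _ | exact DT.zero | exact DT.one | apply DT.pr | apply DT.add | apply DT.mul | exact DT.const (Set.mem_univ _) | exact DT.const (SetLike.mem_coe.2 (by assumption)) | exact DT.const (by assumption))
    · exact ⟨0, It.zero hN, le_refl' 0⟩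
    · rintro i ⟨τ, hτ, hiτ⟩
      obtain ⟨τ', hτ'⟩ := hF1 τ
      refine ⟨τ', It.succ hN hτ hτ', ?_⟩
      obtain ⟨z, hz⟩ := ((hFdef τ τ').1 hτ').1.2
      obtain ⟨y, hy⟩ := hiτ
      exact ⟨y + z, by rw [← hz, ← hy]; ring⟩
  -- the index of an element
  have hidx : ∀ (K : Language.ring.ElementarySubstructure N) (u : N), V ≤ K → u ∈ K →
      ∃ i ∈ K, (∃ τ, It F i τ ∧ Le u τ) ∧ ∀ j, (∃ τ, It F j τ ∧ Le u τ) → Le i j := by
    intro K u hVK hu
    obtain ⟨i, hi, hi'⟩ := least1 hN (fun i => ∃ τ, It F i τ ∧ Le u τ) (by
      repeat' (beta_reduce; with_reducible first | apply DP.not | apply DP.all | apply DP.ex | apply DP.imp | apply DP.and | apply DP.or | apply DP.iff | apply DP.In3 | apply DP.In2 | apply DP.Val | apply DP.In | apply DP.le | apply DP.lt | apply DP.eq | exact DT.proj _ | exact DT.zero | exact DT.one | apply DT.pr | apply DT.add | apply DT.mul | exact DT.const (Set.mem_univ _) | exact DT.const (SetLike.mem_coe.2 (by assumption)) | exact DT.const (by assumption))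
      exact DP.comp2 hItu (by beta_reduce; repeat' with_reducible first | exact DT.proj _ | exact DT.zero | exact DT.one | apply DT.pr | apply DT.add | apply DT.mul | exact DT.const (Set.mem_univ _) | exact DT.const (SetLike.mem_coe.2 (by assumption)) | exact DT.const (by assumption)) (by beta_reduce; repeat' with_reducible first | exact DT.proj _ | exact DT.zero | exact DT.one | apply DT.pr | apply DT.add | apply DT.mul | exact DT.const (Set.mem_univ _) | exact DT.const (SetLike.mem_coe.2 (by assumption)) | exact DT.const (by assumption))) ⟨u, hunb u⟩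
    refine ⟨i, ?_, hi, hi'⟩
    refine unique_mem K (fun i => (∃ τ, It F i τ ∧ Le u τ) ∧
      ∀ j, (∃ τ, It F j τ ∧ Le u τ) → Le i j) ?_ ⟨hi, hi'⟩
      (fun x hx => hN.le_antisymm (hx.2 i hi) (hi' x hx.1))
    repeat' (beta_reduce; with_reducible first | apply DP.not | apply DP.all | apply DP.ex | apply DP.imp | apply DP.and | apply DP.or | apply DP.iff | apply DP.In3 | apply DP.In2 | apply DP.Val | apply DP.In | apply DP.le | apply DP.lt | apply DP.eq | exact DT.proj _ | exact DT.zero | exact DT.one | apply DT.pr | apply DT.add | apply DT.mul | exact DT.const (Set.mem_univ _) | exact DT.const (SetLike.mem_coe.2 (by assumption)) | exact DT.const (by assumption))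
    · exact DP.comp2 (DP.mono hVK hIt) (by beta_reduce; repeat' with_reducible first | exact DT.proj _ | exact DT.zero | exact DT.one | apply DT.pr | apply DT.add | apply DT.mul | exact DT.const (Set.mem_univ _) | exact DT.const (SetLike.mem_coe.2 (by assumption)) | exact DT.const (by assumption)) (by beta_reduce; repeat' with_reducible first | exact DT.proj _ | exact DT.zero | exact DT.one | apply DT.pr | apply DT.add | apply DT.mul | exact DT.const (Set.mem_univ _) | exact DT.const (SetLike.mem_coe.2 (by assumption)) | exact DT.const (by assumption))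
    · exact DP.comp2 (DP.mono hVK hIt) (by beta_reduce; repeat' with_reducible first | exact DT.proj _ | exact DT.zero | exact DT.one | apply DT.pr | apply DT.add | apply DT.mul | exact DT.const (Set.mem_univ _) | exact DT.const (SetLike.mem_coe.2 (by assumption)) | exact DT.const (by assumption)) (by beta_reduce; repeat' with_reducible first | exact DT.proj _ | exact DT.zero | exact DT.one | apply DT.pr | apply DT.add | apply DT.mul | exact DT.const (Set.mem_univ _) | exact DT.const (SetLike.mem_coe.2 (by assumption)) | exact DT.const (by assumption))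
  obtain ⟨i, hiX, ⟨τ, hτ, hbτ⟩, hi⟩ := hidx X b hVX hb
  obtain ⟨e, heY, ⟨ρ, hρ, hbρ⟩, he⟩ := hidx Y b' hVY hb'
  have hie : Le i e := hi e ⟨ρ, hρ, le_trans' hbb' hbρ⟩
  have hei : Le e (i + 1) := by
    obtain ⟨τ', hτ'⟩ := hF1 τ
    refine he (i + 1) ⟨τ', It.succ hN hτ hτ', le_trans' hg ?_⟩
    exact ((hFdef τ τ').1 hτ').1.1 b g hbτ hGb
  have heX : e ∈ X := by
    rcases hN.lt_succ_iff'.1 (hN.lt_succ_iff.2 hei) with h1 | h1
    · rw [hN.le_antisymm (hN.lt_succ_iff.1 h1) hie]
      exact hiX
    · rw [h1]
      exact unique_mem X (fun x => x = i + 1) (by repeat' (beta_reduce; with_reducible first | apply DP.not | apply DP.all | apply DP.ex | apply DP.imp | apply DP.and | apply DP.or | apply DP.iff | apply DP.In3 | apply DP.In2 | apply DP.Val | apply DP.In | apply DP.le | apply DP.lt | apply DP.eq | exact DT.proj _ | exact DT.zero | exact DT.one | apply DT.pr | apply DT.add | apply DT.mul | exact DT.const (Set.mem_univ _) | exact DT.const (SetLike.mem_coe.2 (by assumption)) | exact DT.const (by assumption))) rfl (fun _ h => h)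
  have heV := hXY e heX heY
  refine ⟨ρ, ?_, le_trans' hbb' hbρ⟩
  refine unique_mem V (fun x => It F e x) ?_ hρ (fun x hx => It.unique hN hF2 hx hρ)
  exact DP.comp2 hIt (by beta_reduce; repeat' with_reducible first | exact DT.proj _ | exact DT.zero | exact DT.one | apply DT.pr | apply DT.add | apply DT.mul | exact DT.const (Set.mem_univ _) | exact DT.const (SetLike.mem_coe.2 (by assumption)) | exact DT.const (by assumption)) (by beta_reduce; repeat' with_reducible first | exact DT.proj _ | exact DT.zero | exact DT.one | apply DT.pr | apply DT.add | apply DT.mul | exact DT.const (Set.mem_univ _) | exact DT.const (SetLike.mem_coe.2 (by assumption)) | exact DT.const (by assumption))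

/-- Main argument for condition (B) in the comparable case. -/
theorem keyB (hN : IsPA N) (Z X W : Language.ring.ElementarySubstructure N) (hZX : Z ≤ X)
    (hW : ∀ t r, t ∈ X → r ∈ W → Le t r → t ∈ Z) {b b1 r : N} (hb : b ∈ X) (hb1 : b1 ∈ Z)
    (hr : r ∈ W) (h : b ∈ dclo ((Z : Set N) ∪ {b1, r})) : b ∈ Z := by
  obtain ⟨G, hG, hG'⟩ := exists_rel h
  have hb1X := hZX hb1
  have hGX : DP (X : Set N) (fun v : Fin 3 → N => G (v 0) (v 1) (v 2)) := DP.mono hZX hG
  have hGu : DP Set.univ (fun v : Fin 3 → N => G (v 0) (v 1) (v 2)) :=
    DP.mono (Set.subset_univ _) hG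
  obtain ⟨q, hq, hq'⟩ := least1 hN (fun q => ∀ x, G b1 q x ↔ x = b) (by
    repeat' (beta_reduce; with_reducible first | apply DP.not | apply DP.all | apply DP.ex | apply DP.imp | apply DP.and | apply DP.or | apply DP.iff | apply DP.In3 | apply DP.In2 | apply DP.Val | apply DP.In | apply DP.le | apply DP.lt | apply DP.eq | exact DT.proj _ | exact DT.zero | exact DT.one | apply DT.pr | apply DT.add | apply DT.mul | exact DT.const (Set.mem_univ _) | exact DT.const (SetLike.mem_coe.2 (by assumption)) | exact DT.const (by assumption))
    exact DP.comp3 hGu (by beta_reduce; repeat' with_reducible first | exact DT.proj _ | exact DT.zero | exact DT.one | apply DT.pr | apply DT.add | apply DT.mul | exact DT.const (Set.mem_univ _) | exact DT.const (SetLike.mem_coe.2 (by assumption)) | exact DT.const (by assumption)) (by beta_reduce; repeat' with_reducible first | exact DT.proj _ | exact DT.zero | exact DT.one | apply DT.pr | apply DT.add | apply DT.mul | exact DT.const (Set.mem_univ _) | exact DT.const (SetLike.mem_coe.2 (by assumption)) | exact DT.const (by assumption)) (by beta_reduce; repeat'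 with_reducible first | exact DT.proj _ | exact DT.zero | exact DT.one | apply DT.pr | apply DT.add | apply DT.mul | exact DT.const (Set.mem_univ _) | exact DT.const (SetLike.mem_coe.2 (by assumption)) | exact DT.const (by assumption))) ⟨r, hG'⟩
  have hqX : q ∈ X := by
    refine unique_mem X (fun q => (∀ x, G b1 q x ↔ x = b) ∧
      ∀ z, (∀ x, G b1 z x ↔ x = b) → Le q z) ?_ ⟨hq, hq'⟩
      (fun x hx => hN.le_antisymm (hx.2 q hq) (hq' x hx.1))
    repeat' (beta_reduce; with_reducible first | apply DP.not | apply DP.all | apply DP.ex | apply DP.imp | apply DP.and | apply DP.or | apply DP.iff | apply DP.In3 | apply DP.In2 | apply DP.Val | apply DP.In | apply DP.le | apply DP.lt | apply DP.eq | exact DT.proj _ | exact DT.zero | exact DT.one | apply DT.pr | apply DT.add | apply DT.mul | exact DT.const (Set.mem_univ _) | exact DT.const (SetLike.mem_coe.2 (by assumption)) | exact DT.const (by assumption))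
    · exact DP.comp3 hGX (by beta_reduce; repeat' with_reducible first | exact DT.proj _ | exact DT.zero | exact DT.one | apply DT.pr | apply DT.add | apply DT.mul | exact DT.const (Set.mem_univ _) | exact DT.const (SetLike.mem_coe.2 (by assumption)) | exact DT.const (by assumption)) (by beta_reduce; repeat' with_reducible first | exact DT.proj _ | exact DT.zero | exact DT.one | apply DT.pr | apply DT.add | apply DT.mul | exact DT.const (Set.mem_univ _) | exact DT.const (SetLike.mem_coe.2 (by assumption)) | exact DT.const (by assumption)) (by beta_reduce; repeat' with_reducible first | exact DT.proj _ | exact DT.zero | exact DT.one | apply DT.pr | apply DT.add | apply DT.mul | exact DT.const (Set.mem_univ _) | exact DT.const (SetLike.mem_coe.2 (by assumption)) | exact DT.const (by assumption))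
    · exact DP.comp3 hGX (by beta_reduce; repeat' with_reducible first | exact DT.proj _ | exact DT.zero | exact DT.one | apply DT.pr | apply DT.add | apply DT.mul | exact DT.const (Set.mem_univ _) | exact DT.const (SetLike.mem_coe.2 (by assumption)) | exact DT.const (by assumption)) (by beta_reduce; repeat' with_reducible first | exact DT.proj _ | exact DT.zero | exact DT.one | apply DT.pr | apply DT.add | apply DT.mul | exact DT.const (Set.mem_univ _) | exact DT.const (SetLike.mem_coe.2 (by assumption)) | exact DT.const (by assumption)) (by beta_reduce; repeat' with_reducible first | exact DT.proj _ | exact DT.zero | exact DT.one | apply DT.pr | apply DT.add | apply DT.mul | exact DT.const (Set.mem_univ _) | exact DT.const (SetLike.mem_coe.2 (by assumption)) | exact DT.const (by assumption))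
  have hqZ := hW q r hqX hr (hq' r hG')
  refine unique_mem Z (fun x => G b1 q x) ?_ ((hq b).2 rfl) (fun x hx => (hq x).1 hx)
  exact DP.comp3 hG (by beta_reduce; repeat' with_reducible first | exact DT.proj _ | exact DT.zero | exact DT.one | apply DT.pr | apply DT.add | apply DT.mul | exact DT.const (Set.mem_univ _) | exact DT.const (SetLike.mem_coe.2 (by assumption)) | exact DT.const (by assumption)) (by beta_reduce; repeat' with_reducible first | exact DT.proj _ | exact DT.zero | exact DT.one | apply DT.pr | apply DT.add | apply DT.mul | exact DT.const (Set.mem_univ _) | exact DT.const (SetLike.mem_coe.2 (by assumption)) | exact DT.const (by assumption)) (by beta_reduce; repeat' with_reducible first | exact DT.proj _ | exact DT.zero | exact DT.one | apply DT.pr | apply DT.add | apply DT.mul | exact DT.const (Set.mem_univ _) | exact DT.const (SetLike.mem_coe.2 (by assumption)) | exact DT.const (by assumption))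

end

end Pool.InterD
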