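import Pool.Agent.InterD.Key

/-!
# Collection and definition by recursion in models of PA
-/

set_option linter.unusedTactic false
set_option linter.unreachableTactic false

open FirstOrder FirstOrder.Language FirstOrder.Ring

namespace Pool.InterD

open Pool.Interstr Pool.InterPA

section

variable {N : Type} [CommSemiring N] [Neg N] [CompatibleRing N]

/-- collection -/
theorem coll (hN : IsPA N) (P : N → N → Prop)
    (hP : DP Set.univ (fun v : Fin 2 → N => P (v 0) (v 1))) :
    ∀ m : N, ∃ n, ∀ a, Lt a m → (∃ k, P a k) → ∃ k, Le k n ∧ P a k := by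
  refine ind1 hN (fun m : N => ∃ n, ∀ a, Lt a m → (∃ k, P a k) → ∃ k, Le k n ∧ P a k) ?_ ?_ ?_
  · repeat' (beta_reduce; with_reducible first | apply DP.not | apply DP.all | apply DP.ex | apply DP.imp | apply DP.and | apply DP.or | apply DP.iff | apply DP.In3 | apply DP.In2 | apply DP.Val | apply DP.In | apply DP.le | apply DP.lt | apply DP.eq | exact DT.proj _ | exact DT.zero | exact DT.one | apply DT.pr | apply DT.add | apply DT.mul | exact DT.const (Set.mem_univ _) | exact DT.const (SetLike.mem_coe.2 (by assumption)) | exact DT.const (by assumption))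
    · exact DP.comp2 hP (by beta_reduce; repeat' with_reducible first | exact DT.proj _ | exact DT.zero | exact DT.one | apply DT.pr | apply DT.add | apply DT.mul | exact DT.const (Set.mem_univ _) | exact DT.const (SetLike.mem_coe.2 (by assumption)) | exact DT.const (by assumption)) (by beta_reduce; repeat' with_reducible first | exact DT.proj _ | exact DT.zero | exact DT.one | apply DT.pr | apply DT.add | apply DT.mul | exact DT.const (Set.mem_univ _) | exact DT.const (SetLike.mem_coe.2 (by assumption)) | exact DT.const (by assumption))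
    · exact DP.comp2 hP (by beta_reduce; repeat' with_reducible first | exact DT.proj _ | exact DT.zero | exact DT.one | apply DT.pr | apply DT.add | apply DT.mul | exact DT.const (Set.mem_univ _) | exact DT.const (SetLike.mem_coe.2 (by assumption)) | exact DT.const (by assumption)) (by beta_reduce; repeat' with_reducible first | exact DT.proj _ | exact DT.zero | exact DT.one | apply DT.pr | apply DT.add | apply DT.mul | exact DT.const (Set.mem_univ _) | exact DT.const (SetLike.mem_coe.2 (by assumption)) | exact DT.const (by assumption))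
  · exact ⟨0, fun a ha => absurd ha (hN.not_lt_zero a)⟩
  · rintro m ⟨n, hn⟩
    by_cases h : ∃ k, P m k
    · obtain ⟨k, hk⟩ := h
      refine ⟨n + k, fun a ha hak => ?_⟩
      rcases hN.lt_succ_iff'.1 ha with h1 | rfl
      · obtain ⟨l, hl, hl'⟩ := hn a h1 hak
        exact ⟨l, le_trans' hl (le_add_right' _ _), hl'⟩
      · exact ⟨k, le_add_left' _ _, hk⟩
    · refine ⟨n, fun a ha hak => ?_⟩
      rcases hN.lt_succ_iff'.1 ha with h1 | rfl
      · exact hn a h1 hak
      · exact absurd hak h

/-- the graph of the iteration of `F` from `0` -/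
def It (F : N → N → Prop) (i τ : N) : Prop :=
  ∃ c, Val c 0 0 ∧ (∀ j, Lt j i → ∃ k k', Val c j k ∧ F k k' ∧ Val c (j + 1) k') ∧ Val c i τ

lemma DP.It {Z : Set N} {F : N → N → Prop} (hF : DP Z (fun v : Fin 2 → N => F (v 0) (v 1))) :
    DP Z (fun v : Fin 2 → N => It F (v 0) (v 1)) := by
  unfold InterD.It
  repeat' (beta_reduce; with_reducible first | apply DP.not | apply DP.all | apply DP.ex | apply DP.imp | apply DP.and | apply DP.or | apply DP.iff | apply DP.In3 | apply DP.In2 | apply DP.Val | apply DP.In | apply DP.le | apply DP.lt | apply DP.eq | exact DT.proj _ | exact DT.zero | exact DT.one | apply DT.pr | apply DT.add | apply DT.mul | exact DT.const (Set.mem_univ _) | exact DT.const (SetLike.mem_coe.2 (by assumption)) | exact DT.const (by assumption))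
  exact DP.comp2 hF (by beta_reduce; repeat' with_reducible first | exact DT.proj _ | exact DT.zero | exact DT.one | apply DT.pr | apply DT.add | apply DT.mul | exact DT.const (Set.mem_univ _) | exact DT.const (SetLike.mem_coe.2 (by assumption)) | exact DT.const (by assumption)) (by beta_reduce; repeat' with_reducible first | exact DT.proj _ | exact DT.zero | exact DT.one | apply DT.pr | apply DT.add | apply DT.mul | exact DT.const (Set.mem_univ _) | exact DT.const (SetLike.mem_coe.2 (by assumption)) | exact DT.const (by assumption))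

variable (hN : IsPA N) {F : N → N → Prop} (hF : DP Set.univ (fun v : Fin 2 → N => F (v 0) (v 1)))
  (hF1 : ∀ k, ∃ k', F k k') (hF2 : ∀ k k' k'', F k k' → F k k'' → k' = k'')

include hN hF2 in
lemma It.unique {i τ τ' : N} (h : It F i τ) (h' : It F i τ') : τ = τ' := by
  obtain ⟨c, hc0, hc1, hc2⟩ := h
  obtain ⟨c', hc0', hc1', hc2'⟩ := h'
  have key : ∀ j, Le j i → ∀ k k', Val c j k → Val c' j k' → k = k' := by
    refine ind1 hN (fun j : N => Le j i → ∀ k k', Val c j k → Val c' j k' → k = k') (by repeat' (beta_reduce; with_reducible first | apply DP.not | apply DP.all | apply DP.ex | apply DP.imp | apply DP.and | apply DP.or | apply DP.iff | apply DP.In3 | apply DP.In2 | apply DP.Val | apply DP.In | apply DP.le | apply DP.lt | apply DP.eq | exact DT.proj _ | exact DT.zero | exact DT.one | apply DT.pr | apply DT.add | apply DT.mul | exact DT.const (Set.mem_univ _) | exact DT.const (SetLike.mem_coe.2 (by assumption)) | exact DT.const (by assumption))) ?_ ?_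
    · intro _ k k' h h'
      rw [Val.unique hN h hc0, Val.unique hN h' hc0']
    · intro j ih hj k k' h h'
      have hji : Lt j i := by
        obtain ⟨z, hz⟩ := hj
        exact ⟨z, by rw [← hz]; ring⟩
      obtain ⟨l, l1, h1, h2, h3⟩ := hc1 j hji
      obtain ⟨l', l1', h1', h2', h3'⟩ := hc1' j hji
      have e := ih (le_of_lt' hji) l l' h1 h1'
      subst e
      rw [Val.unique hN h h3, Val.unique hN h' h3']
      exact hF2 l l1 l1' h2 h2'
  exact key i (le_refl' i) τ τ' hc2 hc2'

include hN in
lemma It.zero : It F 0 0 := by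
  obtain ⟨c, hc⟩ := compF hN (fun _ k => k = 0) (by repeat' (beta_reduce; with_reducible first | apply DP.not | apply DP.all | apply DP.ex | apply DP.imp | apply DP.and | apply DP.or | apply DP.iff | apply DP.In3 | apply DP.In2 | apply DP.Val | apply DP.In | apply DP.le | apply DP.lt | apply DP.eq | exact DT.proj _ | exact DT.zero | exact DT.one | apply DT.pr | apply DT.add | apply DT.mul | exact DT.const (Set.mem_univ _) | exact DT.const (SetLike.mem_coe.2 (by assumption)) | exact DT.const (by assumption))) 1 0
    (fun a _ => ⟨0, le_refl' 0, rfl⟩) (fun a k k' _ h h' => h.trans h'.symm)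
  have h0 : Val c 0 0 := (hc 0 0 ⟨0, by ring⟩).2 rfl
  exact ⟨c, h0, fun j hj => absurd hj (hN.not_lt_zero j), h0⟩

include hN in
lemma It.succ {i τ τ' : N} (h : It F i τ) (h' : F τ τ') : It F (i + 1) τ' := by
  obtain ⟨c, hc0, hc1, hc2⟩ := h
  have hex : ∀ a, Lt a (i + 1) → ∃ k, Val c a k := by
    intro a ha
    rcases hN.lt_succ_iff'.1 ha with h1 | rfl
    · obtain ⟨k, k', h2, _⟩ := hc1 a h1
      exact ⟨k, h2⟩
    · exact ⟨τ, hc2⟩
  obtain ⟨n, hn⟩ := coll hN (fun a k => Val c a k) (by repeat' (beta_reduce; with_reducible first | apply DP.not | apply DP.all | apply DP.ex | apply DP.imp | apply DP.and | apply DP.or | apply DP.iff | apply DP.In3 | apply DP.In2 | apply DP.Val | apply DP.In | apply DP.le | apply DP.lt | apply DP.eq | exact DT.proj _ | exact DT.zero | exact DT.one | apply DT.pr | apply DT.add | apply DT.mul | exact DT.const (Set.mem_univ _) | exact DT.const (SetLike.mem_coe.2 (by assumption)) | exact DT.const (by assumption))) (i + 1)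
  obtain ⟨c', hc'⟩ := compF hN (fun a k => (Lt a (i + 1) ∧ Val c a k) ∨ (a = i + 1 ∧ k = τ'))
    (by repeat' (beta_reduce; with_reducible first | apply DP.not | apply DP.all | apply DP.ex | apply DP.imp | apply DP.and | apply DP.or | apply DP.iff | apply DP.In3 | apply DP.In2 | apply DP.Val | apply DP.In | apply DP.le | apply DP.lt | apply DP.eq | exact DT.proj _ | exact DT.zero | exact DT.one | apply DT.pr | apply DT.add | apply DT.mul | exact DT.const (Set.mem_univ _) | exact DT.const (SetLike.mem_coe.2 (by assumption)) | exact DT.const (by assumption))) (i + 1 + 1) (n + τ') (by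
      intro a ha
      rcases hN.lt_succ_iff'.1 ha with h1 | h1
      · obtain ⟨k, hk, hk'⟩ := hn a h1 (hex a h1)
        exact ⟨k, le_trans' hk (le_add_right' _ _), Or.inl ⟨h1, hk'⟩⟩
      · exact ⟨τ', le_add_left' _ _, Or.inr ⟨h1, rfl⟩⟩) (by
      rintro a k k' _ (⟨h1, h2⟩ | ⟨h1, h2⟩) (⟨h1', h2'⟩ | ⟨h1', h2'⟩)
      · exact Val.unique hN h2 h2'
      · rw [h1'] at h1
        exact absurd h1 (hN.not_lt_self _)
      · rw [h1] at h1'
        exact absurd h1' (hN.not_lt_self _)
      · rw [h2, h2'])
  have hv : ∀ a k, Lt a (i + 1) → (Val c' a k ↔ Val c a k) := by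
    intro a k ha
    rw [hc' a k (lt_of_lt_of_le' ha ⟨1, rfl⟩)]
    constructor
    · rintro (h1 | h1)
      · exact h1.2
      · rw [h1.1] at ha
        exact absurd ha (hN.not_lt_self _)
    · exact fun h1 => Or.inl ⟨ha, h1⟩
  have hlast : Val c' (i + 1) τ' := (hc' _ _ (lt_succ_self _)).2 (Or.inr ⟨rfl, rfl⟩)
  have h0i : Lt 0 (i + 1) := ⟨i, by ring⟩
  refine ⟨c', (hv 0 0 h0i).2 hc0, fun j hj => ?_, hlast⟩
  rcases hN.lt_succ_iff'.1 hj with h1 | rfl
  · obtain ⟨k, k', h2, h3, h4⟩ := hc1 j h1
    have hj1 : Lt (j + 1) (i + 1) := by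
      obtain ⟨z, hz⟩ := h1
      exact ⟨z, by rw [← hz]; ring⟩
    exact ⟨k, k', (hv _ _ hj).2 h2, h3, (hv _ _ hj1).2 h4⟩
  · exact ⟨τ, τ', (hv _ _ (lt_succ_self _)).2 hc2, h', hlast⟩

include hN hF hF1 in
lemma It.exists (i : N) : ∃ τ, It F i τ := by
  refine ind1 hN (fun i : N => ∃ τ, It F i τ) ?_ ?_ ?_ i
  · repeat' (beta_reduce; with_reducible first | apply DP.not | apply DP.all | apply DP.ex | apply DP.imp | apply DP.and | apply DP.or | apply DP.iff | apply DP.In3 | apply DP.In2 | apply DP.Val | apply DP.In | apply DP.le | apply DP.lt | apply DP.eq | exact DT.proj _ | exact DT.zero | exact DT.one | apply DT.pr | apply DT.add | apply DT.mul | exact DT.const (Set.mem_univ _) | exact DT.const (SetLike.mem_coe.2 (by assumption)) | exact DT.const (by assumption))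
    exact DP.comp2 (DP.It hF) (by beta_reduce; repeat' with_reducible first | exact DT.proj _ | exact DT.zero | exact DT.one | apply DT.pr | apply DT.add | apply DT.mul | exact DT.const (Set.mem_univ _) | exact DT.const (SetLike.mem_coe.2 (by assumption)) | exact DT.const (by assumption)) (by beta_reduce; repeat' with_reducible first | exact DT.proj _ | exact DT.zero | exact DT.one | apply DT.pr | apply DT.add | apply DT.mul | exact DT.const (Set.mem_univ _) | exact DT.const (SetLike.mem_coe.2 (by assumption)) | exact DT.const (by assumption))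
  · exact ⟨0, It.zero hN⟩
  · rintro i ⟨τ, hτ⟩
    obtain ⟨τ', hτ'⟩ := hF1 τ
    exact ⟨τ', It.succ hN hτ hτ'⟩

end

end Pool.InterD
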